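import Mathlib

open Finset
open scoped BigOperators

namespace Pool.Agent.H49.L

/-- number of `k`-subsets of an `N`-set containing `j` prescribed elements -/
noncomputable def ch (N : ℕ) : ℕ → ℕ → ℝ
  | k, 0 => (N.choose k : ℝ)
  | 0, _ + 1 => 0
  | k + 1, j + 1 => ch N k j - ch N k (j + 1)

theorem ch_zero (N k : ℕ) : ch N k 0 = (N.choose k : ℝ) := by
  cases k <;> simp [ch]

theorem ch_k0 (N j : ℕ) : ch N 0 (j + 1) = 0 := by simp [ch]

theorem ch_rec (N k j : ℕ) : ch N (k + 1) (j + 1) = ch N k j - ch N k (j + 1) := by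
  rw [ch]

theorem ch_A (N : ℕ) : ∀ k j : ℕ, ch (N + 1) (k + 1) (j + 1) = ch N k j := by
  intro k
  induction k with
  | zero =>
    intro j
    rw [ch_rec, ch_k0, sub_zero]
    cases j with
    | zero => rw [ch_zero, ch_zero]; simp
    | succ j => rw [ch_k0, ch_k0]
  | succ k ih =>
    intro j
    rw [ch_rec, ih j]
    cases j with
    | zero =>
      rw [ch_zero, ch_zero, ch_zero, Nat.choose_succ_succ]
      push_cast
      ring
    | succ j =>
      rw [ih j, ch_rec]

theorem ch_pascal (N k j : ℕ) : ch (N + 1) (k + 1) j = ch N (k + 1) j + ch N k j := by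
  cases j with
  | zero =>
    rw [ch_zero, ch_zero, ch_zero, Nat.choose_succ_succ]
    push_cast
    ring
  | succ j =>
    rw [ch_A, ch_rec]
    ring

/-- ratio of consecutive values -/
theorem ch_ratio : ∀ (j N k : ℕ), j + 1 ≤ N →
    ((N : ℝ) - j) * ch N k (j + 1) = ((k : ℝ) - j) * ch N k j := by
  intro j
  induction j with
  | zero =>
    intro N k hN
    obtain ⟨N, rfl⟩ := Nat.exists_eq_add_of_le' (show 1 ≤ N by omega)
    cases k with
    | zero => rw [ch_k0]; simp
    | succ k =>
      rw [ch_A, ch_zero, ch_zero]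
      have h := Nat.add_one_mul_choose_eq N k
      have h' : (((N + 1) * N.choose k : ℕ) : ℝ) = (((N + 1).choose (k + 1) * (k + 1) : ℕ) : ℝ) := by
        rw [h]
      push_cast at h' ⊢
      linarith
  | succ j ih =>
    intro N k hN
    obtain ⟨N, rfl⟩ := Nat.exists_eq_add_of_le' (show 1 ≤ N by omega)
    cases k with
    | zero => rw [ch_k0, ch_k0]; simp
    | succ k =>
      rw [ch_A, ch_A]
      have h := ih N k (by omega)
      push_cast
      push_cast at h
      linarith

variable {α : Type} [DecidableEq α]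

theorem sum_pcs (M : Finset α) (k : ℕ) (a : α) (ha : a ∉ M) (f : Finset α → ℝ) :
    ∑ K ∈ (insert a M).powersetCard (k + 1), f K =
      ∑ K ∈ M.powersetCard (k + 1), f K + ∑ K ∈ M.powersetCard k, f (insert a K) := by
  rw [Finset.powersetCard_succ_insert ha, Finset.sum_union, Finset.sum_image]
  · intro S hS T hT h
    have haS : a ∉ S := fun h => ha ((Finset.mem_powersetCard.1 hS).1 h)
    have haT : a ∉ T := fun h => ha ((Finset.mem_powersetCard.1 hT).1 h)
    rw [← Finset.erase_insert haS, ← Finset.erase_insert haT, h]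
  · rw [Finset.disjoint_left]
    intro S hS hS'
    obtain ⟨T, hT, rfl⟩ := Finset.mem_image.1 hS'
    exact ha ((Finset.mem_powersetCard.1 hS).1 (Finset.mem_insert_self _ _))

/-- sum of the `i`-th powers of the `k`-subsums -/
noncomputable def FF (v : α → ℝ) (M : Finset α) (k i : ℕ) : ℝ :=
  ∑ K ∈ M.powersetCard k, (∑ a ∈ K, v a) ^ i

/-- power sum -/
noncomputable def PP (v : α → ℝ) (M : Finset α) (i : ℕ) : ℝ := ∑ a ∈ M, v a ^ i

theorem PP_insert (v : α → ℝ) (M : Finset α) (i : ℕ) (a : α) (ha : a ∉ M) :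
    PP v (insert a M) i = PP v M i + v a ^ i := by
  unfold PP
  rw [Finset.sum_insert ha]; ring

theorem FF_zero (v : α → ℝ) (M : Finset α) (k : ℕ) : FF v M k 0 = ch M.card k 0 := by
  unfold FF
  rw [ch_zero]
  simp

theorem FF_k0 (v : α → ℝ) (M : Finset α) (i : ℕ) : FF v M 0 (i + 1) = 0 := by
  unfold FF
  simp

theorem FF_empty (v : α → ℝ) (k i : ℕ) : FF v ∅ k (i + 1) = 0 := by
  cases k with
  | zero => exact FF_k0 v ∅ i
  | succ k =>
    unfold FF
    rw [Finset.powersetCard_eq_empty.2 (by simp), Finset.sum_empty]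

theorem FF_insert (v : α → ℝ) (M : Finset α) (k i : ℕ) (a : α) (ha : a ∉ M) :
    FF v (insert a M) (k + 1) i = FF v M (k + 1) i +
      ∑ K ∈ M.powersetCard k, (v a + ∑ a ∈ K, v a) ^ i := by
  unfold FF
  rw [sum_pcs M k a ha]
  congr 1
  refine Finset.sum_congr rfl fun K hK => ?_
  have haK : a ∉ K := fun h => ha ((Finset.mem_powersetCard.1 hK).1 h)
  rw [Finset.sum_insert haK]

theorem PP_empty (v : α → ℝ) (i : ℕ) : PP v ∅ i = 0 := by simp [PP]

theorem F1 (v : α → ℝ) (M : Finset α) : ∀ k : ℕ, FF v M k 1 = ch M.card k 1 * PP v M 1 := by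
  induction M using Finset.induction_on with
  | empty => intro k; rw [FF_empty, PP_empty, mul_zero]
  | insert a M ha ih =>
    intro k
    cases k with
    | zero => rw [FF_k0, ch_k0, zero_mul]
    | succ k =>
      rw [FF_insert v M k 1 a ha, PP_insert v M 1 a ha, Finset.card_insert_of_notMem ha, ih]
      have h : ∑ K ∈ M.powersetCard k, (v a + ∑ a ∈ K, v a) ^ 1 =
          v a * FF v M k 0 + FF v M k 1 := by
        unfold FF
        rw [Finset.mul_sum, ← Finset.sum_add_distrib]
        exact Finset.sum_congr rfl fun K _ => by ring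
      rw [h, ih, FF_zero, ch_A, ch_rec]
      ring

theorem F2 (v : α → ℝ) (M : Finset α) : ∀ k : ℕ, FF v M k 2 =
    ch M.card k 1 * PP v M 2 + ch M.card k 2 * (PP v M 1 ^ 2 - PP v M 2) := by
  induction M using Finset.induction_on with
  | empty => intro k; rw [FF_empty, PP_empty, PP_empty]; ring
  | insert a M ha ih =>
    intro k
    cases k with
    | zero => rw [FF_k0, ch_k0, ch_k0]; ring
    | succ k =>
      rw [FF_insert v M k 2 a ha, PP_insert v M 1 a ha, PP_insert v M 2 a ha,
        Finset.card_insert_of_notMem ha, ih]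
      have h : ∑ K ∈ M.powersetCard k, (v a + ∑ a ∈ K, v a) ^ 2 =
          v a ^ 2 * FF v M k 0 + 2 * v a * FF v M k 1 + FF v M k 2 := by
        unfold FF
        rw [Finset.mul_sum, Finset.mul_sum, ← Finset.sum_add_distrib, ← Finset.sum_add_distrib]
        exact Finset.sum_congr rfl fun K _ => by ring
      rw [h, ih, F1, FF_zero, ch_A, ch_A, ch_rec, ch_rec]
      ring

theorem F3 (v : α → ℝ) (M : Finset α) : ∀ k : ℕ, FF v M k 3 =
    ch M.card k 1 * PP v M 3 + 3 * ch M.card k 2 * (PP v M 2 * PP v M 1 - PP v M 3) +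
      ch M.card k 3 * (PP v M 1 ^ 3 - 3 * PP v M 1 * PP v M 2 + 2 * PP v M 3) := by
  induction M using Finset.induction_on with
  | empty => intro k; rw [FF_empty, PP_empty, PP_empty, PP_empty]; ring
  | insert a M ha ih =>
    intro k
    cases k with
    | zero => rw [FF_k0, ch_k0, ch_k0, ch_k0]; ring
    | succ k =>
      rw [FF_insert v M k 3 a ha, PP_insert v M 1 a ha, PP_insert v M 2 a ha,
        PP_insert v M 3 a ha, Finset.card_insert_of_notMem ha, ih]
      have h : ∑ K ∈ M.powersetCard k, (v a + ∑ a ∈ K, v a) ^ 3 =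
          v a ^ 3 * FF v M k 0 + 3 * v a ^ 2 * FF v M k 1 + 3 * v a * FF v M k 2 +
            FF v M k 3 := by
        unfold FF
        rw [Finset.mul_sum, Finset.mul_sum, Finset.mul_sum, ← Finset.sum_add_distrib,
          ← Finset.sum_add_distrib, ← Finset.sum_add_distrib]
        exact Finset.sum_congr rfl fun K _ => by ring
      rw [h, ih, F1, F2, FF_zero, ch_A, ch_A, ch_A, ch_rec, ch_rec, ch_rec]
      ring

theorem F4 (v : α → ℝ) (M : Finset α) : ∀ k : ℕ, FF v M k 4 =
    ch M.card k 1 * PP v M 4 +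
      ch M.card k 2 * (4 * (PP v M 3 * PP v M 1 - PP v M 4) + 3 * (PP v M 2 ^ 2 - PP v M 4)) +
      6 * ch M.card k 3 * (PP v M 2 * PP v M 1 ^ 2 - PP v M 2 ^ 2 - 2 * PP v M 3 * PP v M 1 +
        2 * PP v M 4) +
      ch M.card k 4 * (PP v M 1 ^ 4 - 6 * PP v M 1 ^ 2 * PP v M 2 + 8 * PP v M 1 * PP v M 3 +
        3 * PP v M 2 ^ 2 - 6 * PP v M 4) := by
  induction M using Finset.induction_on with
  | empty => intro k; rw [FF_empty, PP_empty, PP_empty, PP_empty, PP_empty]; ring
  | insert a M ha ih =>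
    intro k
    cases k with
    | zero => rw [FF_k0, ch_k0, ch_k0, ch_k0, ch_k0]; ring
    | succ k =>
      rw [FF_insert v M k 4 a ha, PP_insert v M 1 a ha, PP_insert v M 2 a ha,
        PP_insert v M 3 a ha, PP_insert v M 4 a ha, Finset.card_insert_of_notMem ha, ih]
      have h : ∑ K ∈ M.powersetCard k, (v a + ∑ a ∈ K, v a) ^ 4 =
          v a ^ 4 * FF v M k 0 + 4 * v a ^ 3 * FF v M k 1 + 6 * v a ^ 2 * FF v M k 2 +
            4 * v a * FF v M k 3 + FF v M k 4 := by
        unfold FF
        rw [Finset.mul_sum, Finset.mul_sum, Finset.mul_sum, Finset.mul_sum,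
          ← Finset.sum_add_distrib,
          ← Finset.sum_add_distrib, ← Finset.sum_add_distrib, ← Finset.sum_add_distrib]
        exact Finset.sum_congr rfl fun K _ => by ring
      rw [h, ih, F1, F2, F3, FF_zero, ch_A, ch_A, ch_A, ch_A, ch_rec, ch_rec, ch_rec, ch_rec]
      ring

end Pool.Agent.H49.L
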