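import Mathlib
import Pool.Agent.H49.L.Ch

open Finset
open scoped BigOperators

namespace Pool.Agent.H49.L

/-- variance factor -/
noncomputable def fa (N k : ℝ) : ℝ := k * (N - k) / (N * (N - 1))

/-- third cumulant factor -/
noncomputable def fc (N k : ℝ) : ℝ := k * (N - k) * (N - 2 * k) / (N * (N - 1) * (N - 2))

/-- pair factor -/
noncomputable def fb (N k : ℝ) : ℝ :=
  k * (k - 1) * (N - k) * (N - k - 1) / (N * (N - 1) * (N - 2) * (N - 3))

theorem ch1_eq (N k : ℕ) (hN : 1 ≤ N) : ch N k 1 = (N.choose k : ℝ) * (k / N) := by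
  have h := ch_ratio 0 N k hN
  rw [ch_zero] at h
  push_cast at h
  have hN0 : (0 : ℝ) < N := by exact_mod_cast hN
  field_simp
  linarith

theorem ch2_eq (N k : ℕ) (hN : 2 ≤ N) :
    ch N k 2 = (N.choose k : ℝ) * (k / N) * ((k - 1) / (N - 1)) := by
  have h := ch_ratio 1 N k hN
  rw [ch1_eq N k (by omega)] at h
  push_cast at h
  have hN0 : (2 : ℝ) ≤ N := by exact_mod_cast hN
  have h1 : (0 : ℝ) < N - 1 := by linarith
  rw [mul_div_assoc', eq_div_iff h1.ne']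
  linarith

theorem ch3_eq (N k : ℕ) (hN : 3 ≤ N) :
    ch N k 3 = (N.choose k : ℝ) * (k / N) * ((k - 1) / (N - 1)) * ((k - 2) / (N - 2)) := by
  have h := ch_ratio 2 N k hN
  rw [ch2_eq N k (by omega)] at h
  push_cast at h
  have hN0 : (3 : ℝ) ≤ N := by exact_mod_cast hN
  have h1 : (0 : ℝ) < N - 2 := by linarith
  rw [mul_div_assoc', eq_div_iff h1.ne']
  linarith

theorem ch4_eq (N k : ℕ) (hN : 4 ≤ N) :
    ch N k 4 = (N.choose k : ℝ) * (k / N) * ((k - 1) / (N - 1)) * ((k - 2) / (N - 2)) *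
      ((k - 3) / (N - 3)) := by
  have h := ch_ratio 3 N k hN
  rw [ch3_eq N k (by omega)] at h
  push_cast at h
  have hN0 : (4 : ℝ) ≤ N := by exact_mod_cast hN
  have h1 : (0 : ℝ) < N - 3 := by linarith
  rw [mul_div_assoc', eq_div_iff h1.ne']
  linarith

variable {α : Type} [DecidableEq α]

theorem M1 (v : α → ℝ) (M : Finset α) (k : ℕ) (h1 : PP v M 1 = 0) : FF v M k 1 = 0 := by
  rw [F1, h1, mul_zero]

theorem M2 (v : α → ℝ) (M : Finset α) (k : ℕ) (hM : 2 ≤ M.card) (h1 : PP v M 1 = 0) :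
    FF v M k 2 = (M.card.choose k : ℝ) * (fa M.card k * PP v M 2) := by
  rw [F2, h1, ch1_eq _ _ (by omega), ch2_eq _ _ hM]
  have hN0 : (2 : ℝ) ≤ M.card := by exact_mod_cast hM
  have h0 : (M.card : ℝ) ≠ 0 := by linarith
  have h1 : (M.card : ℝ) - 1 ≠ 0 := by
    intro h; linarith
  unfold fa
  field_simp
  ring

theorem M3 (v : α → ℝ) (M : Finset α) (k : ℕ) (hM : 3 ≤ M.card) (h1 : PP v M 1 = 0) :
    FF v M k 3 = (M.card.choose k : ℝ) * (fc M.card k * PP v M 3) := by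
  rw [F3, h1, ch1_eq _ _ (by omega), ch2_eq _ _ (by omega), ch3_eq _ _ hM]
  have hN0 : (3 : ℝ) ≤ M.card := by exact_mod_cast hM
  have h0 : (M.card : ℝ) ≠ 0 := by linarith
  have h1 : (M.card : ℝ) - 1 ≠ 0 := by
    intro h; linarith
  have h2 : (M.card : ℝ) - 2 ≠ 0 := by
    intro h; linarith
  unfold fc
  field_simp
  ring

theorem M4 (v : α → ℝ) (M : Finset α) (k : ℕ) (hM : 4 ≤ M.card) (h1 : PP v M 1 = 0) :
    FF v M k 4 = (M.card.choose k : ℝ) *
      ((fa M.card k - 6 * fb M.card k) * PP v M 4 + 3 * fb M.card k * PP v M 2 ^ 2) := by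
  rw [F4, h1, ch1_eq _ _ (by omega), ch2_eq _ _ (by omega), ch3_eq _ _ (by omega),
    ch4_eq _ _ hM]
  have hN0 : (4 : ℝ) ≤ M.card := by exact_mod_cast hM
  have h0 : (M.card : ℝ) ≠ 0 := by linarith
  have h1 : (M.card : ℝ) - 1 ≠ 0 := by
    intro h; linarith
  have h2 : (M.card : ℝ) - 2 ≠ 0 := by
    intro h; linarith
  have h3 : (M.card : ℝ) - 3 ≠ 0 := by
    intro h; linarith
  unfold fa fb
  field_simp
  ring

end Pool.Agent.H49.L
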