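import Mathlib
import Pool.Agent.H49.L.Mom
import Pool.Agent.H49.MMS.Cnt

open Finset
open scoped BigOperators

namespace Pool.Agent.H49.L

open Pool.Agent.H49.MMS

/-- the quartic test function -/
theorem pt4 (y : ℝ) :
    206 / 1000 * (2 * y + 3 * y ^ 2 - y ^ 4) ≤ if 0 < y ∧ y < 2 then (1 : ℝ) else 0 := by
  split_ifs with h
  · obtain ⟨h1, h2⟩ := h
    nlinarith [sq_nonneg (y ^ 2 - 1366 / 1000 * y), sq_nonneg (y ^ 2 - 1866 / 1000),
      sq_nonneg (y - 1366 / 1000)]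
  · have : 2 * y + 3 * y ^ 2 - y ^ 4 = y * (2 - y) * (1 + y) ^ 2 := by ring
    rw [this]
    by_cases h0 : 0 < y
    · have h2 : 2 ≤ y := by
        by_contra hc
        exact h ⟨h0, not_le.1 hc⟩
      have : 0 ≤ y * (y - 2) * (1 + y) ^ 2 :=
        mul_nonneg (mul_nonneg h0.le (by linarith)) (sq_nonneg _)
      nlinarith
    · push Not at h0
      have : 0 ≤ (-y) * (2 - y) * (1 + y) ^ 2 :=
        mul_nonneg (mul_nonneg (by linarith) (by linarith)) (sq_nonneg _)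
      nlinarith

/-- the quadratic test function -/
theorem pt2 (y : ℝ) :
    2 * y - y ^ 2 ≤ if 0 < y ∧ y < 2 then (1 : ℝ) else 0 := by
  split_ifs with h
  · nlinarith [sq_nonneg (y - 1)]
  · by_cases h0 : 0 < y
    · have h2 : 2 ≤ y := by
        by_contra hc
        exact h ⟨h0, not_le.1 hc⟩
      nlinarith
    · push Not at h0
      nlinarith

variable {α : Type} [DecidableEq α]

/-- number of `k`-subsets with `0 < δ + v(K) < hi` -/
noncomputable def ev (v : α → ℝ) (M : Finset α) (k : ℕ) (δ hi : ℝ) : ℝ :=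
  ∑ K ∈ M.powersetCard k, if 0 < δ + ∑ a ∈ K, v a ∧ δ + ∑ a ∈ K, v a < hi then (1 : ℝ) else 0

theorem ev_nonneg (v : α → ℝ) (M : Finset α) (k : ℕ) (δ hi : ℝ) : 0 ≤ ev v M k δ hi := by
  unfold ev
  exact Finset.sum_nonneg fun K _ => by split_ifs <;> norm_num

theorem ind_scale (s z : ℝ) (hs : 0 < s) :
    (if 0 < s * z ∧ s * z < 2 then (1 : ℝ) else 0) = if 0 < z ∧ z < 2 / s then (1 : ℝ) else 0 := by
  have h1 : 0 < s * z ↔ 0 < z := mul_pos_iff_of_pos_left hs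
  have h2 : s * z < 2 ↔ z < 2 / s := by rw [lt_div_iff₀ hs, mul_comm]
  simp only [h1, h2]

theorem L2 (v : α → ℝ) (M : Finset α) (k : ℕ) (hM : 4 ≤ M.card) (h1 : PP v M 1 = 0)
    (δ s : ℝ) (hs : 0 < s) :
    206 / 1000 * (M.card.choose k : ℝ) * (2 * s * δ + 3 * s ^ 2 * (fa M.card k * PP v M 2 + δ ^ 2) -
      s ^ 4 * (((fa M.card k - 6 * fb M.card k) * PP v M 4 + 3 * fb M.card k * PP v M 2 ^ 2) +
        4 * δ * (fc M.card k * PP v M 3) + 6 * δ ^ 2 * (fa M.card k * PP v M 2) + δ ^ 4)) ≤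
      ev v M k δ (2 / s) := by
  have e1 := M1 v M k h1
  have e2 := M2 v M k (by omega) h1
  have e3 := M3 v M k (by omega) h1
  have e4 := M4 v M k hM h1
  have hmain : ∑ K ∈ M.powersetCard k, (206 / 1000 * (2 * (s * (δ + ∑ a ∈ K, v a)) +
      3 * (s * (δ + ∑ a ∈ K, v a)) ^ 2 - (s * (δ + ∑ a ∈ K, v a)) ^ 4)) ≤ ev v M k δ (2 / s) := by
    unfold ev
    refine Finset.sum_le_sum fun K _ => ?_
    rw [← ind_scale s _ hs]
    exact pt4 _
  refine le_trans (le_of_eq ?_) hmain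
  have hexp : ∀ K : Finset α, (206 / 1000 * (2 * (s * (δ + ∑ a ∈ K, v a)) +
      3 * (s * (δ + ∑ a ∈ K, v a)) ^ 2 - (s * (δ + ∑ a ∈ K, v a)) ^ 4)) =
      206 / 1000 * (2 * s * δ + 3 * s ^ 2 * δ ^ 2 - s ^ 4 * δ ^ 4) * (∑ a ∈ K, v a) ^ 0 +
      206 / 1000 * (2 * s + 6 * s ^ 2 * δ - 4 * s ^ 4 * δ ^ 3) * (∑ a ∈ K, v a) ^ 1 +
      206 / 1000 * (3 * s ^ 2 - 6 * s ^ 4 * δ ^ 2) * (∑ a ∈ K, v a) ^ 2 +
      206 / 1000 * (-4 * s ^ 4 * δ) * (∑ a ∈ K, v a) ^ 3 +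
      206 / 1000 * (- s ^ 4) * (∑ a ∈ K, v a) ^ 4 := by
    intro K; ring
  rw [Finset.sum_congr rfl fun K _ => hexp K]
  simp only [Finset.sum_add_distrib, ← Finset.mul_sum]
  have f0 : ∑ K ∈ M.powersetCard k, (∑ a ∈ K, v a) ^ 0 = (M.card.choose k : ℝ) := by
    have := FF_zero v M k
    unfold FF at this
    rw [this, ch_zero]
  have f1 : ∑ K ∈ M.powersetCard k, (∑ a ∈ K, v a) ^ 1 = 0 := e1
  have f2 : ∑ K ∈ M.powersetCard k, (∑ a ∈ K, v a) ^ 2 =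
    (M.card.choose k : ℝ) * (fa M.card k * PP v M 2) := e2
  have f3 : ∑ K ∈ M.powersetCard k, (∑ a ∈ K, v a) ^ 3 =
    (M.card.choose k : ℝ) * (fc M.card k * PP v M 3) := e3
  have f4 : ∑ K ∈ M.powersetCard k, (∑ a ∈ K, v a) ^ 4 = (M.card.choose k : ℝ) *
      ((fa M.card k - 6 * fb M.card k) * PP v M 4 + 3 * fb M.card k * PP v M 2 ^ 2) := e4
  rw [f0, f1, f2, f3, f4]
  ring

theorem Q2 (v : α → ℝ) (M : Finset α) (k : ℕ) (hM : 2 ≤ M.card) (h1 : PP v M 1 = 0)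
    (δ s : ℝ) (hs : 0 < s) :
    (M.card.choose k : ℝ) * (2 * s * δ - s ^ 2 * (fa M.card k * PP v M 2 + δ ^ 2)) ≤
      ev v M k δ (2 / s) := by
  have e1 := M1 v M k h1
  have e2 := M2 v M k (by omega) h1
  have hmain : ∑ K ∈ M.powersetCard k, (2 * (s * (δ + ∑ a ∈ K, v a)) -
      (s * (δ + ∑ a ∈ K, v a)) ^ 2) ≤ ev v M k δ (2 / s) := by
    unfold ev
    refine Finset.sum_le_sum fun K _ => ?_
    rw [← ind_scale s _ hs]
    exact pt2 _
  refine le_trans (le_of_eq ?_) hmain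
  have hexp : ∀ K : Finset α, (2 * (s * (δ + ∑ a ∈ K, v a)) -
      (s * (δ + ∑ a ∈ K, v a)) ^ 2) =
      (2 * s * δ - s ^ 2 * δ ^ 2) * (∑ a ∈ K, v a) ^ 0 +
      (2 * s - 2 * s ^ 2 * δ) * (∑ a ∈ K, v a) ^ 1 +
      (- s ^ 2) * (∑ a ∈ K, v a) ^ 2 := by
    intro K; ring
  rw [Finset.sum_congr rfl fun K _ => hexp K]
  simp only [Finset.sum_add_distrib, ← Finset.mul_sum]
  have f0 : ∑ K ∈ M.powersetCard k, (∑ a ∈ K, v a) ^ 0 = (M.card.choose k : ℝ) := by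
    have := FF_zero v M k
    unfold FF at this
    rw [this, ch_zero]
  have f1 : ∑ K ∈ M.powersetCard k, (∑ a ∈ K, v a) ^ 1 = 0 := e1
  have f2 : ∑ K ∈ M.powersetCard k, (∑ a ∈ K, v a) ^ 2 =
    (M.card.choose k : ℝ) * (fa M.card k * PP v M 2) := e2
  rw [f0, f1, f2]
  ring

/-- the events are monotone in the shift -/
theorem ev_le_cnt (x v : α → ℝ) (M : Finset α) (k : ℕ) (δ hi z : ℝ)
    (h : ∀ K ∈ M.powersetCard k, δ + ∑ a ∈ K, v a ≤ z + ∑ a ∈ K, x a) :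
    ev v M k δ hi ≤ cnt x M k z := by
  unfold ev cnt
  refine Finset.sum_le_sum fun K hK => ?_
  have := h K hK
  split_ifs with h1 h2 h2
  · exact le_rfl
  · exact absurd (lt_of_lt_of_le h1.1 this) h2
  · norm_num
  · exact le_rfl

end Pool.Agent.H49.L
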