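import Mathlib
import Pool.Agent.H49.L.Test

open Finset
open scoped BigOperators

namespace Pool.Agent.H49.L

/-- `fa` in terms of the density -/
theorem fa_eq (N k : ℝ) (hN : 2 ≤ N) : fa N k = (k / N) * (1 - k / N) * (N / (N - 1)) := by
  have h0 : N ≠ 0 := by linarith
  have h1 : N - 1 ≠ 0 := by intro h; linarith
  unfold fa
  field_simp

theorem fc_eq (N k : ℝ) (hN : 3 ≤ N) :
    fc N k = fa N k * (1 - 2 * (k / N)) * (N / (N - 2)) := by
  have h0 : N ≠ 0 := by linarith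
  have h1 : N - 1 ≠ 0 := by intro h; linarith
  have h2 : N - 2 ≠ 0 := by intro h; linarith
  unfold fa fc
  field_simp

theorem fa_ge (N k : ℝ) (hN : 2 ≤ N) (hk : 0 ≤ k) (hkN : k ≤ N) :
    (k / N) * (1 - k / N) ≤ fa N k := by
  rw [fa_eq N k hN]
  have h1 : 1 ≤ N / (N - 1) := by
    rw [le_div_iff₀ (by linarith)]; linarith
  have h2 : 0 ≤ (k / N) * (1 - k / N) := by
    have h3 : k / N ≤ 1 := by rw [div_le_one (by linarith)]; exact hkN
    have h4 : 0 ≤ k / N := div_nonneg hk (by linarith)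
    exact mul_nonneg h4 (by linarith)
  nlinarith

theorem fb_le (N k : ℝ) (hN : 4 ≤ N) (hk : 1 ≤ k) (hkN' : k ≤ N) (hkN : 6 * ((k / N) * (1 - k / N)) ≤ 1) :
    fb N k ≤ ((k / N) * (1 - k / N)) ^ 2 := by
  have h0 : 0 < N := by linarith
  have hz : 6 * (k * (N - k)) ≤ N ^ 2 := by
    have : (k / N) * (1 - k / N) = k * (N - k) / N ^ 2 := by field_simp
    rw [this, mul_div_assoc', div_le_one (by positivity)] at hkN
    exact hkN
  have hR : ((k / N) * (1 - k / N)) ^ 2 = (k * (N - k)) ^ 2 / N ^ 4 := by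
    field_simp
  rw [hR]
  unfold fb
  have hd : 0 < N * (N - 1) * (N - 2) * (N - 3) :=
    mul_pos (mul_pos (mul_pos h0 (by linarith)) (by linarith)) (by linarith)
  rw [div_le_div_iff₀ hd (by positivity)]
  set z := k * (N - k) with hzdef
  have e1 : k * (k - 1) * (N - k) * (N - k - 1) = z * (z - N + 1) := by rw [hzdef]; ring
  rw [e1]
  have hz0 : 0 ≤ z := mul_nonneg (by linarith) (by linarith)
  have key : (z - N + 1) * N ^ 3 ≤ z * ((N - 1) * (N - 2) * (N - 3)) := by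
    have : z * (6 * N ^ 2 - 11 * N + 6) ≤ N ^ 3 * (N - 1) := by
      have h1 : 0 ≤ 6 * N ^ 2 - 11 * N + 6 := by nlinarith
      have h2 : 6 * (z * (6 * N ^ 2 - 11 * N + 6)) ≤ N ^ 2 * (6 * N ^ 2 - 11 * N + 6) := by
        have := mul_le_mul_of_nonneg_right hz h1
        linarith
      nlinarith [sq_nonneg N, mul_nonneg h0.le h0.le]
    nlinarith
  have := mul_le_mul_of_nonneg_left key (mul_nonneg hz0 h0.le)
  nlinarith

theorem fb_nonneg (N k : ℝ) (hN : 4 ≤ N) (hk : 1 ≤ k) (hkN : k + 1 ≤ N) : 0 ≤ fb N k := by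
  unfold fb
  apply div_nonneg
  · exact mul_nonneg (mul_nonneg (mul_nonneg (by linarith) (by linarith)) (by linarith))
      (by linarith)
  · exact mul_nonneg (mul_nonneg (mul_nonneg (by linarith) (by linarith)) (by linarith))
      (by linarith)

theorem six_fb (N k : ℝ) (hN : 4 ≤ N) (hk : 1 ≤ k) (hkN' : k ≤ N)
    (hkN : 6 * ((k / N) * (1 - k / N)) ≤ 1) : 6 * fb N k ≤ fa N k := by
  have h1 := fb_le N k hN hk hkN' hkN
  have h2 := fa_ge N k (by linarith) (by linarith) hkN'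
  have h3 : 0 ≤ (k / N) * (1 - k / N) := by
    have h3 : k / N ≤ 1 := by rw [div_le_one (by linarith)]; exact hkN'
    have h4 : 0 ≤ k / N := div_nonneg (by linarith) (by linarith)
    exact mul_nonneg h4 (by linarith)
  nlinarith

/-- the main part of the quartic bound -/
noncomputable def X0 (p h s τ : ℝ) : ℝ := 3 * s ^ 2 - τ * s ^ 4 - 6 * p ^ 2 * h ^ 2 * s ^ 4

noncomputable def Y0 (p h s m : ℝ) : ℝ := 4 * p * h * m * (1 - 2 * p) * s ^ 4

noncomputable def G0 (p h s τ m : ℝ) : ℝ :=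
  2 * p * h * s + 3 * p ^ 2 * h ^ 2 * s ^ 2 - (3 - 6 * τ) * (p * (1 - p)) ^ 2 * s ^ 4 -
    p ^ 4 * h ^ 4 * s ^ 4 + p * (1 - p) * (X0 p h s τ - Y0 p h s m)

variable {α : Type} [DecidableEq α]

theorem core (v : α → ℝ) (M : Finset α) (k : ℕ) (hM : 16 ≤ M.card) (hk : 1 ≤ k)
    (hkM : 7 * k ≤ M.card) (h1 : PP v M 1 = 0) (h2 : PP v M 2 = 1) (τ m h s : ℝ)
    (h4 : PP v M 4 ≤ τ) (h3 : PP v M 3 ≤ m) (hh : 0 ≤ h) (hs : 0 < s) (hτ : τ ≤ 1 / 2)
    (hm : 0 ≤ m)
    (hXY : 23 * Y0 (k / M.card) h s m ≤ 7 * X0 (k / M.card) h s τ) :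
    206 / 1000 * (M.card.choose k : ℝ) * G0 (k / M.card) h s τ m ≤
      ev v M k ((k / M.card : ℝ) * h) (2 / s) := by
  have hN : (16 : ℝ) ≤ M.card := by exact_mod_cast hM
  have hk' : (1 : ℝ) ≤ k := by exact_mod_cast hk
  have hkM' : (7 : ℝ) * k ≤ M.card := by exact_mod_cast hkM
  set N : ℝ := (M.card : ℝ) with hNd
  set p : ℝ := (k : ℝ) / N with hp
  have hN0 : 0 < N := by linarith
  have hp0 : 0 < p := div_pos (by linarith) hN0
  have hp7 : p ≤ 1 / 7 := by
    rw [hp, div_le_div_iff₀ hN0 (by norm_num)]; linarith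
  have hA : 6 * (p * (1 - p)) ≤ 1 := by nlinarith
  have hb := fb_le N k (by linarith) hk' (by linarith) hA
  have h6 := six_fb N k (by linarith) hk' (by linarith) hA
  have hL := L2 v M k (by omega) h1 (p * h) s hs
  rw [h2, ← hNd] at hL
  refine le_trans ?_ hL
  rw [mul_assoc, mul_assoc]
  refine mul_le_mul_of_nonneg_left ?_ (by norm_num)
  refine mul_le_mul_of_nonneg_left ?_ (by positivity)
  -- fc
  have hc := fc_eq N k (by linarith)
  have ha := fa_eq N k (by linarith)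
  rw [← hp] at hc ha hb
  have ha0 : 0 ≤ fa N k := by
    rw [ha]
    exact mul_nonneg (mul_nonneg hp0.le (by linarith)) (div_nonneg hN0.le (by linarith))
  have hs2 : 0 ≤ s ^ 2 := by positivity
  have hs4 : 0 ≤ s ^ 4 := by positivity
  have hc0 : 0 ≤ fc N k := by
    rw [hc]
    exact mul_nonneg (mul_nonneg ha0 (by linarith)) (div_nonneg hN0.le (by linarith))
  -- bound the quartic bracket
  have b1 : (fa N k - 6 * fb N k) * PP v M 4 ≤ (fa N k - 6 * fb N k) * τ :=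
    mul_le_mul_of_nonneg_left h4 (by linarith)
  have b2 : (3 - 6 * τ) * fb N k ≤ (3 - 6 * τ) * (p * (1 - p)) ^ 2 :=
    mul_le_mul_of_nonneg_left hb (by linarith)
  have b3 : 4 * (p * h) * (fc N k * PP v M 3) ≤ 4 * (p * h) * (fc N k * m) :=
    mul_le_mul_of_nonneg_left (mul_le_mul_of_nonneg_left h3 hc0)
      (by have := mul_nonneg hp0.le hh; linarith)
  have b4 : s ^ 4 * (((fa N k - 6 * fb N k) * PP v M 4 + 3 * fb N k * (1 : ℝ) ^ 2) +
        4 * (p * h) * (fc N k * PP v M 3) + 6 * (p * h) ^ 2 * (fa N k * 1) + (p * h) ^ 4) ≤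
      s ^ 4 * (fa N k * τ + (3 - 6 * τ) * (p * (1 - p)) ^ 2 + 4 * (p * h) * (fc N k * m) +
        6 * (p * h) ^ 2 * fa N k + (p * h) ^ 4) := by
    refine mul_le_mul_of_nonneg_left ?_ hs4
    nlinarith
  -- the factor `fa`
  have b5 : p * (1 - p) * (X0 p h s τ - Y0 p h s m) ≤
      fa N k * (X0 p h s τ - Y0 p h s m * (N / (N - 2))) := by
    rw [ha]
    have hpp : 0 ≤ p * (1 - p) := mul_nonneg hp0.le (by linarith)
    rw [mul_assoc (p * (1 - p))]
    refine mul_le_mul_of_nonneg_left ?_ hpp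
    have hY0 : 0 ≤ Y0 p h s m := by
      unfold Y0
      have h5 : 0 ≤ 1 - 2 * p := by linarith
      positivity
    have hd1 : 0 < N - 1 := by linarith
    have hd2 : 0 < N - 2 := by linarith
    have e : N / (N - 1) * (X0 p h s τ - Y0 p h s m * (N / (N - 2))) =
      (N * ((N - 2) * X0 p h s τ - N * Y0 p h s m)) / ((N - 1) * (N - 2)) := by
      field_simp
    rw [e, le_div_iff₀ (mul_pos hd1 hd2)]
    have hX : 23 * ((N - 2) * Y0 p h s m) ≤ 7 * ((N - 2) * X0 p h s τ) := by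
      have := mul_le_mul_of_nonneg_left hXY hd2.le
      linarith
    have hY : 7 * ((3 * N - 2) * Y0 p h s m) ≤ 23 * ((N - 2) * Y0 p h s m) := by
      nlinarith
    nlinarith
  unfold G0
  have e6 : fc N k = fa N k * (1 - 2 * p) * (N / (N - 2)) := hc
  have e7 : fa N k * (X0 p h s τ - Y0 p h s m * (N / (N - 2))) =
      3 * s ^ 2 * fa N k - s ^ 4 * (fa N k * τ) - s ^ 4 * (6 * (p * h) ^ 2 * fa N k) -
        s ^ 4 * (4 * (p * h) * (fc N k * m)) := by
    rw [e6]; unfold X0 Y0; ring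
  rw [e7] at b5
  nlinarith

end Pool.Agent.H49.L
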