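import Mathlib
import Pool.Agent.H49.L.Fac

namespace Pool.Agent.H49.L

theorem numA (p : ℝ) (h0 : 0 < p) (h1 : p ≤ 1 / 8) :
    p ≤ 206 / 1000 * G0 p 0 (195 / 100) (1 / 5) 0 := by
  unfold G0 X0 Y0
  have : 206 / 1000 * (2 * p * 0 * (195 / 100) + 3 * p ^ 2 * 0 ^ 2 * (195 / 100) ^ 2 -
      (3 - 6 * (1 / 5)) * (p * (1 - p)) ^ 2 * (195 / 100) ^ 4 - p ^ 4 * 0 ^ 4 * (195 / 100) ^ 4 +
      p * (1 - p) * (3 * (195 / 100) ^ 2 - 1 / 5 * (195 / 100) ^ 4 -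
        6 * p ^ 2 * 0 ^ 2 * (195 / 100) ^ 4 - 4 * p * 0 * 0 * (1 - 2 * p) * (195 / 100) ^ 4)) - p =
      p * (206 / 1000 * (1 - p) * ((3 * (195 / 100) ^ 2 - 1 / 5 * (195 / 100) ^ 4) -
        (3 - 6 * (1 / 5)) * (p * (1 - p)) * (195 / 100) ^ 4) - 1) := by ring
  have h2 : 0 ≤ 206 / 1000 * (1 - p) * ((3 * (195 / 100) ^ 2 - 1 / 5 * (195 / 100) ^ 4) -
        (3 - 6 * (1 / 5)) * (p * (1 - p)) * (195 / 100) ^ 4) - 1 := by
    nlinarith [mul_nonneg h0.le (sub_nonneg.2 h1), sq_nonneg (p - 1 / 8)]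
  have h3 := mul_nonneg h0.le h2
  linarith

theorem num_aux (p h s τ m : ℝ) :
    206 / 1000 * (1 - p) * G0 p h s τ m - p = p * (206 / 1000 * (1 - p) * (2 * h * s +
      3 * p * h ^ 2 * s ^ 2 - (3 - 6 * τ) * p * (1 - p) ^ 2 * s ^ 4 - p ^ 3 * h ^ 4 * s ^ 4 +
      (1 - p) * (3 * s ^ 2 - τ * s ^ 4 - 6 * p ^ 2 * h ^ 2 * s ^ 4 -
        4 * p * h * m * (1 - 2 * p) * s ^ 4)) - 1) := by
  unfold G0 X0 Y0
  ring

theorem num1 (p : ℝ) (h0 : 0 < p) (h1 : p ≤ 1 / 8) :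
    p ≤ 206 / 1000 * (1 - p) * G0 p (1 / 2) (178 / 100) (285 / 1000) (482 / 1000) ∧
      23 * Y0 p (1 / 2) (178 / 100) (482 / 1000) ≤ 7 * X0 p (1 / 2) (178 / 100) (285 / 1000) := by
  constructor
  · have h2 := num_aux p (1 / 2) (178 / 100) (285 / 1000) (482 / 1000)
    have h3 : 0 ≤ p * (1 / 8 - p) := mul_nonneg h0.le (sub_nonneg.2 h1)
    have key : 0 ≤ (206 / 1000 * (1 - p) * (2 * (1 / 2) * (178 / 100) +
      3 * p * (1 / 2) ^ 2 * (178 / 100) ^ 2 - (3 - 6 * (285 / 1000)) * p * (1 - p) ^ 2 *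
      (178 / 100) ^ 4 - p ^ 3 * (1 / 2) ^ 4 * (178 / 100) ^ 4 +
      (1 - p) * (3 * (178 / 100) ^ 2 - (285 / 1000) * (178 / 100) ^ 4 -
      6 * p ^ 2 * (1 / 2) ^ 2 * (178 / 100) ^ 4 -
        4 * p * (1 / 2) * (482 / 1000) * (1 - 2 * p) * (178 / 100) ^ 4)) - 1 : ℝ) := by
      nlinarith [mul_nonneg h3 h0.le, mul_nonneg h3 (mul_nonneg h0.le h0.le),
        mul_nonneg h3 (mul_nonneg h0.le (mul_nonneg h0.le h0.le)), sq_nonneg (p - 1 / 8)]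
    have := mul_nonneg h0.le key
    linarith
  · unfold X0 Y0
    nlinarith [mul_nonneg h0.le (sub_nonneg.2 h1)]

theorem num2 (p : ℝ) (h0 : 0 < p) (h1 : p ≤ 1 / 8) :
    p ≤ 206 / 1000 * (1 - p) * G0 p (577 / 1000) (175 / 100) (3 / 10) (512 / 1000) ∧
      23 * Y0 p (577 / 1000) (175 / 100) (512 / 1000) ≤
        7 * X0 p (577 / 1000) (175 / 100) (3 / 10) := by
  constructor
  · have h2 := num_aux p (577 / 1000) (175 / 100) (3 / 10) (512 / 1000)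
    have h3 : 0 ≤ p * (1 / 8 - p) := mul_nonneg h0.le (sub_nonneg.2 h1)
    have key : 0 ≤ (206 / 1000 * (1 - p) * (2 * (577 / 1000) * (175 / 100) +
      3 * p * (577 / 1000) ^ 2 * (175 / 100) ^ 2 - (3 - 6 * (3 / 10)) * p * (1 - p) ^ 2 *
      (175 / 100) ^ 4 - p ^ 3 * (577 / 1000) ^ 4 * (175 / 100) ^ 4 +
      (1 - p) * (3 * (175 / 100) ^ 2 - (3 / 10) * (175 / 100) ^ 4 -
      6 * p ^ 2 * (577 / 1000) ^ 2 * (175 / 100) ^ 4 -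
        4 * p * (577 / 1000) * (512 / 1000) * (1 - 2 * p) * (175 / 100) ^ 4)) - 1 : ℝ) := by
      nlinarith [mul_nonneg h3 h0.le, mul_nonneg h3 (mul_nonneg h0.le h0.le),
        mul_nonneg h3 (mul_nonneg h0.le (mul_nonneg h0.le h0.le)), sq_nonneg (p - 1 / 8)]
    have := mul_nonneg h0.le key
    linarith
  · unfold X0 Y0
    nlinarith [mul_nonneg h0.le (sub_nonneg.2 h1)]

theorem num3 (p : ℝ) (h0 : 0 < p) (h1 : p ≤ 1 / 8) :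
    p ≤ 206 / 1000 * (1 - p) * G0 p (7 / 10) (17 / 10) (33 / 100) (571 / 1000) ∧
      23 * Y0 p (7 / 10) (17 / 10) (571 / 1000) ≤ 7 * X0 p (7 / 10) (17 / 10) (33 / 100) := by
  constructor
  · have h2 := num_aux p (7 / 10) (17 / 10) (33 / 100) (571 / 1000)
    have h3 : 0 ≤ p * (1 / 8 - p) := mul_nonneg h0.le (sub_nonneg.2 h1)
    have key : 0 ≤ (206 / 1000 * (1 - p) * (2 * (7 / 10) * (17 / 10) +
      3 * p * (7 / 10) ^ 2 * (17 / 10) ^ 2 - (3 - 6 * (33 / 100)) * p * (1 - p) ^ 2 *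
      (17 / 10) ^ 4 - p ^ 3 * (7 / 10) ^ 4 * (17 / 10) ^ 4 +
      (1 - p) * (3 * (17 / 10) ^ 2 - (33 / 100) * (17 / 10) ^ 4 -
      6 * p ^ 2 * (7 / 10) ^ 2 * (17 / 10) ^ 4 -
        4 * p * (7 / 10) * (571 / 1000) * (1 - 2 * p) * (17 / 10) ^ 4)) - 1 : ℝ) := by
      nlinarith [mul_nonneg h3 h0.le, mul_nonneg h3 (mul_nonneg h0.le h0.le),
        mul_nonneg h3 (mul_nonneg h0.le (mul_nonneg h0.le h0.le)), sq_nonneg (p - 1 / 8)]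
    have := mul_nonneg h0.le key
    linarith
  · unfold X0 Y0
    nlinarith [mul_nonneg h0.le (sub_nonneg.2 h1)]

theorem num4 (p : ℝ) (h0 : 0 < p) (h1 : p ≤ 1 / 8) :
    p ≤ 206 / 1000 * (1 - p) * G0 p (9 / 10) (155 / 100) (42 / 100) (648 / 1000) ∧
      23 * Y0 p (9 / 10) (155 / 100) (648 / 1000) ≤ 7 * X0 p (9 / 10) (155 / 100) (42 / 100) := by
  constructor
  · have h2 := num_aux p (9 / 10) (155 / 100) (42 / 100) (648 / 1000)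
    have h3 : 0 ≤ p * (1 / 8 - p) := mul_nonneg h0.le (sub_nonneg.2 h1)
    have key : 0 ≤ (206 / 1000 * (1 - p) * (2 * (9 / 10) * (155 / 100) +
      3 * p * (9 / 10) ^ 2 * (155 / 100) ^ 2 - (3 - 6 * (42 / 100)) * p * (1 - p) ^ 2 *
      (155 / 100) ^ 4 - p ^ 3 * (9 / 10) ^ 4 * (155 / 100) ^ 4 +
      (1 - p) * (3 * (155 / 100) ^ 2 - (42 / 100) * (155 / 100) ^ 4 -
      6 * p ^ 2 * (9 / 10) ^ 2 * (155 / 100) ^ 4 -
        4 * p * (9 / 10) * (648 / 1000) * (1 - 2 * p) * (155 / 100) ^ 4)) - 1 : ℝ) := by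
      nlinarith [mul_nonneg h3 h0.le, mul_nonneg h3 (mul_nonneg h0.le h0.le),
        mul_nonneg h3 (mul_nonneg h0.le (mul_nonneg h0.le h0.le)), sq_nonneg (p - 1 / 8)]
    have := mul_nonneg h0.le key
    linarith
  · unfold X0 Y0
    nlinarith [mul_nonneg h0.le (sub_nonneg.2 h1)]

end Pool.Agent.H49.L
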