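import Mathlib
import Pool.Agent.H49.L.NumL
import Pool.Agent.H49.M4.FinB

open Finset
open scoped BigOperators

namespace Pool.Agent.H49.L

open Pool.Agent.H49.MMS
open Pool.Agent.H49.M4 (least LB steps bd enough swap2 gd cnt_gd gd_nonneg var_le base0)

variable {α : Type} [DecidableEq α]

/-- one-sided Chebyshev for `k`-subsets, from below -/
theorem cant (x v : α → ℝ) (M : Finset α) (k : ℕ) (hM : 2 ≤ M.card) (hk : k ≤ M.card)
    (h1 : PP v M 1 = 0) (δ z : ℝ) (hδ : 0 < δ)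
    (h : ∀ K ∈ M.powersetCard k, δ + ∑ a ∈ K, v a ≤ z + ∑ a ∈ K, x a) :
    (M.card.choose k : ℝ) * δ ^ 2 ≤ (δ ^ 2 + fa M.card k * PP v M 2) * cnt x M k z := by
  have hN : (2 : ℝ) ≤ M.card := by exact_mod_cast hM
  have hkN : (k : ℝ) ≤ M.card := by exact_mod_cast hk
  have hfa : 0 ≤ fa M.card k := by
    unfold fa
    apply div_nonneg (mul_nonneg (by positivity) (by linarith))
    exact mul_nonneg (by linarith) (by linarith)
  have hP2 : 0 ≤ PP v M 2 := Finset.sum_nonneg fun a _ => sq_nonneg _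
  set S := fa M.card k * PP v M 2 with hS
  have hS0 : 0 ≤ S := mul_nonneg hfa hP2
  have hD : 0 < δ ^ 2 + S := by positivity
  set s := δ / (δ ^ 2 + S) with hs
  have hs0 : 0 < s := div_pos hδ hD
  have hQ := Q2 v M k hM h1 δ s hs0
  have hE := ev_le_cnt x v M k δ (2 / s) z h
  have hval : 2 * s * δ - s ^ 2 * (S + δ ^ 2) = δ ^ 2 / (δ ^ 2 + S) := by
    rw [hs]; field_simp; ring
  rw [hval] at hQ
  have h3 := hQ.trans hE
  rw [mul_div_assoc', div_le_iff₀ hD] at h3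
  linarith

/-- recentred first moment -/
theorem PP_rec1 (u : α → ℝ) (M : Finset α) (N : ℝ) (hN : (M.card : ℝ) = N) (hN0 : 0 < N)
    (β : ℝ) (hβ : ∑ a ∈ M, u a = β) : PP (fun a => u a - β / N) M 1 = 0 := by
  unfold PP
  simp only [pow_one]
  rw [Finset.sum_sub_distrib, hβ, Finset.sum_const, nsmul_eq_mul, hN]
  field_simp
  ring

theorem PP_rec2 (u : α → ℝ) (M : Finset α) (N : ℝ) (hN : (M.card : ℝ) = N) (hN0 : 0 < N)
    (β : ℝ) (hβ : ∑ a ∈ M, u a = β) :
    PP (fun a => u a - β / N) M 2 = ∑ a ∈ M, u a ^ 2 - β ^ 2 / N := by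
  unfold PP
  have h : ∀ a ∈ M, (u a - β / N) ^ 2 = u a ^ 2 - 2 * (β / N) * u a + (β / N) ^ 2 := by
    intro a _; ring
  rw [Finset.sum_congr rfl h, Finset.sum_add_distrib, Finset.sum_sub_distrib, ← Finset.mul_sum,
    hβ, Finset.sum_const, nsmul_eq_mul, hN]
  field_simp
  ring

theorem cnt_mono_set (x : α → ℝ) (M M' : Finset α) (h : M' ⊆ M) (k : ℕ) (z : ℝ) :
    cnt x M' k z ≤ cnt x M k z := by
  unfold cnt
  refine Finset.sum_le_sum_of_subset_of_nonneg (Finset.powersetCard_mono h) ?_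
  intro K _ _
  split_ifs <;> norm_num

/-- two large negative entries -/
theorem two_neg (x w : α → ℝ) (M : Finset α) (k : ℕ) (hM : 16 ≤ M.card) (hk : 1 ≤ k)
    (hkM : 8 * k ≤ M.card) (h1 : PP w M 1 = 0) (β : ℝ) (hβ : 0 < β)
    (hV : PP w M 2 ≤ 4 * β ^ 2) (c : α) (hc : c ∈ M) (hc0 : w c < 0)
    (hc2 : 285 / 1000 * PP w M 2 ≤ w c ^ 2)
    (hx : ∀ K ∈ M.powersetCard k, (k : ℝ) * (β / M.card) + ∑ a ∈ K, w a ≤ 0 + ∑ a ∈ K, x a) :
    ((M.card).choose (k - 1) : ℝ) ≤ cnt x M k 0 := by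
  obtain ⟨n, hn⟩ : ∃ n : ℕ, M.card = n + 1 := ⟨M.card - 1, by omega⟩
  have hN : (16 : ℝ) ≤ M.card := by exact_mod_cast hM
  have hkR : (1 : ℝ) ≤ k := by exact_mod_cast hk
  have hkM' : (8 : ℝ) * k ≤ M.card := by exact_mod_cast hkM
  set N : ℝ := (M.card : ℝ) with hNd
  have hn1 : (n : ℝ) = N - 1 := by rw [hNd, hn]; push_cast; ring
  set γ : ℝ := - w c with hγ
  have hγ0 : 0 < γ := by rw [hγ]; linarith
  set V : ℝ := PP w M 2 with hVd
  have hV0 : 0 ≤ V := Finset.sum_nonneg fun a _ => sq_nonneg _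
  have hγ2 : 285 / 1000 * V ≤ γ ^ 2 := by rw [hγ, neg_sq]; exact hc2
  set M2 : Finset α := M.erase c with hM2
  have hM2c : M2.card = n := by rw [hM2, Finset.card_erase_of_mem hc, hn]; rfl
  have hM2R : (M2.card : ℝ) = N - 1 := by rw [hM2c, hn1]
  have hs1 : ∑ a ∈ M2, w a = γ := by
    have h := Finset.sum_erase_add M w hc
    have h' : ∑ a ∈ M, w a = 0 := by
      have := h1; unfold PP at this; simpa using this
    rw [← hM2] at h; rw [hγ]; linarith
  have hs2 : ∑ a ∈ M2, w a ^ 2 = V - γ ^ 2 := by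
    have h := Finset.sum_erase_add M (fun a => w a ^ 2) hc
    rw [← hM2] at h
    have h' : ∑ a ∈ M, w a ^ 2 = V := rfl
    rw [hγ, neg_sq]; linarith
  have hN1 : 0 < N - 1 := by linarith
  have p1 := PP_rec1 w M2 (N - 1) hM2R hN1 γ hs1
  have p2 := PP_rec2 w M2 (N - 1) hM2R hN1 γ hs1
  rw [hs2] at p2
  set δ : ℝ := (k : ℝ) * (β / N + γ / (N - 1)) with hδ
  have hδ0 : 0 < δ := by positivity
  have hkn : k ≤ M2.card := by omega
  have hC := cant x (fun a => w a - γ / (N - 1)) M2 k (by omega) hkn p1 δ 0 hδ0 (by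
    intro K hK
    obtain ⟨hKs, hKc⟩ := Finset.mem_powersetCard.1 hK
    have := hx K (Finset.mem_powersetCard.2 ⟨hKs.trans (Finset.erase_subset _ _), hKc⟩)
    rw [Finset.sum_sub_distrib, Finset.sum_const, hKc, nsmul_eq_mul, hδ]
    linarith)
  rw [p2, hM2R] at hC
  have hmono := cnt_mono_set x M M2 (Finset.erase_subset _ _) k 0
  refine le_trans ?_ hmono
  set G := cnt x M2 k 0 with hG
  -- binomial relations
  have hNn : M2.card = n := hM2c
  rw [hNn] at hC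
  have r1 : ((n + 1 : ℕ).choose k : ℝ) * (N - k) = (n.choose k : ℝ) * N := by
    have h := Nat.choose_mul_succ_eq n k
    have h' : ((n.choose k * (n + 1) : ℕ) : ℝ) = (((n + 1).choose k * (n + 1 - k) : ℕ) : ℝ) := by
      rw [h]
    have hkn1 : k ≤ n + 1 := by omega
    push_cast [Nat.cast_sub hkn1] at h'
    rw [hn1] at h'
    ring_nf at h' ⊢
    linarith
  have r2 : ((n + 1 : ℕ).choose (k - 1) : ℝ) * (N + 1 - k) = ((n + 1 : ℕ).choose k : ℝ) * k := by
    obtain ⟨k', rfl⟩ : ∃ k', k = k' + 1 := ⟨k - 1, by omega⟩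
    have h := Nat.choose_succ_right_eq (n + 1) k'
    have hk'n : k' ≤ n + 1 := by omega
    have h' : (((n + 1).choose (k' + 1) * (k' + 1) : ℕ) : ℝ) =
      (((n + 1).choose k' * (n + 1 - k') : ℕ) : ℝ) := by rw [h]
    push_cast [Nat.cast_sub hk'n] at h'
    rw [hn1] at h'
    simp only [Nat.add_sub_cancel]
    push_cast
    linarith
  rw [hn]
  set Ca := ((n + 1 : ℕ).choose (k - 1) : ℝ) with hCa
  set Cb := ((n + 1 : ℕ).choose k : ℝ) with hCb
  set Cc := (n.choose k : ℝ) with hCc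
  have hCc0 : 0 ≤ Cc := by positivity
  have hCa0 : 0 ≤ Ca := by positivity
  have hNk : 0 < N - k := by linarith
  -- Ca * (N+1-k) * (N-k) = Cc * N * k
  have r3 : Ca * ((N + 1 - k) * (N - k)) = Cc * (N * k) := by
    calc Ca * ((N + 1 - k) * (N - k)) = (Ca * (N + 1 - k)) * (N - k) := by ring
      _ = (Cb * (N - k)) * k := by rw [r2]; ring
      _ = Cc * (N * k) := by rw [r1]; ring
  -- the numerical inequality
  have hfa : fa (N - 1) k = k * (N - 1 - k) / ((N - 1) * (N - 2)) := by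
    unfold fa; congr 1; ring
  set D : ℝ := (β / N + γ / (N - 1)) ^ 2 with hD
  have hδD : δ ^ 2 = (k : ℝ) ^ 2 * D := by rw [hδ, hD]; ring
  have hN0 : 0 < N := by linarith
  have hN2 : 0 < N - 2 := by linarith
  have hDge : (β + γ) ^ 2 ≤ D * N ^ 2 := by
    have h5 : γ / N ≤ γ / (N - 1) := div_le_div_of_nonneg_left hγ0.le hN1 (by linarith)
    have h6 : (β + γ) / N ≤ β / N + γ / (N - 1) := by rw [add_div]; linarith
    have h7 : 0 ≤ (β + γ) / N := by positivity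
    have h8 : ((β + γ) / N) ^ 2 ≤ D := pow_le_pow_left₀ h7 h6 2
    rw [div_pow, div_le_iff₀ (by positivity)] at h8
    exact h8
  have hnum1 : 7 / 10 * (N ^ 3 * (N - 1 - k)) ≤
      ((N + 1 - k) * (N - k) - k * N) * ((N - 1) * (N - 2)) := by
    have hk0 : (0 : ℝ) ≤ N - 8 * k := by linarith
    set t := N - 8 * (k : ℝ) with ht
    have hkt : (k : ℝ) = (N - t) / 8 := by rw [ht]; ring
    have htN : t ≤ N := by rw [ht]; linarith
    rw [hkt]
    obtain ⟨y, hy, hy0⟩ : ∃ y, N = 16 + y ∧ 0 ≤ y := ⟨N - 16, by ring, by linarith⟩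
    rw [hy] at htN ⊢
    have : 0 ≤ t * t := mul_nonneg hk0 hk0
    nlinarith [mul_nonneg hk0 hy0, mul_nonneg hy0 hy0, mul_nonneg hk0 (mul_nonneg hy0 hy0),
      mul_nonneg hy0 (mul_nonneg hy0 hy0), mul_nonneg this hy0, mul_nonneg this (mul_nonneg hy0 hy0),
      mul_nonneg hk0 (mul_nonneg hy0 (mul_nonneg hy0 hy0)),
      mul_nonneg (mul_nonneg hy0 hy0) (mul_nonneg hy0 hy0)]
  have hnum2 : V - γ ^ 2 ≤ 7 / 10 * (β + γ) ^ 2 := by
    have h5 : (7 / 100 : ℝ) * V ^ 2 ≤ (β * γ) ^ 2 := by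
      have : V / 4 * (285 / 1000 * V) ≤ β ^ 2 * γ ^ 2 :=
        mul_le_mul (by linarith) hγ2 (by positivity) (by positivity)
      nlinarith [sq_nonneg V]
    have h6 : (264 / 1000 : ℝ) * V ≤ β * γ := by
      refine le_of_sq_le_sq ?_ (by positivity)
      nlinarith [sq_nonneg V]
    nlinarith
  have hkey : (fa (N - 1) k * (V - γ ^ 2 - γ ^ 2 / (N - 1))) * (N * k) ≤
      δ ^ 2 * ((N + 1 - k) * (N - k) - k * N) := by
    rw [hfa, hδD]
    have h5 : V - γ ^ 2 - γ ^ 2 / (N - 1) ≤ 7 / 10 * (D * N ^ 2) := by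
      have : 0 ≤ γ ^ 2 / (N - 1) := by positivity
      nlinarith
    have h6 : 0 ≤ k * (N - 1 - k) / ((N - 1) * (N - 2)) * (N * k) := by
      have : 0 ≤ N - 1 - k := by linarith
      positivity
    have hD0 : 0 ≤ D := sq_nonneg _
    calc (k * (N - 1 - k) / ((N - 1) * (N - 2)) * (V - γ ^ 2 - γ ^ 2 / (N - 1))) * (N * k)
        = (k * (N - 1 - k) / ((N - 1) * (N - 2)) * (N * k)) *
          (V - γ ^ 2 - γ ^ 2 / (N - 1)) := by ring
      _ ≤ (k * (N - 1 - k) / ((N - 1) * (N - 2)) * (N * k)) * (7 / 10 * (D * N ^ 2)) :=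
          mul_le_mul_of_nonneg_left h5 h6
      _ = (k : ℝ) ^ 2 * D * ((7 / 10 * (N ^ 3 * (N - 1 - k))) / ((N - 1) * (N - 2))) := by
          field_simp
      _ ≤ (k : ℝ) ^ 2 * D * ((N + 1 - k) * (N - k) - k * N) := by
          refine mul_le_mul_of_nonneg_left ?_ (by positivity)
          rw [div_le_iff₀ (mul_pos hN1 hN2)]
          exact hnum1
  -- conclusion
  set S := fa (N - 1) k * (V - γ ^ 2 - γ ^ 2 / (N - 1)) with hS
  have hG0 : 0 ≤ G := cnt_nonneg _ _ _ _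
  have hP : 0 < (N + 1 - k) * (N - k) := mul_pos (by linarith) hNk
  have hδ2 : 0 < δ ^ 2 := by positivity
  have h9 : Ca * (((N + 1 - k) * (N - k)) * δ ^ 2) ≤ G * (((N + 1 - k) * (N - k)) * δ ^ 2) := by
    calc Ca * (((N + 1 - k) * (N - k)) * δ ^ 2) = (N * k) * (Cc * δ ^ 2) := by
          rw [← mul_assoc, r3]; ring
      _ ≤ (N * k) * ((δ ^ 2 + S) * G) :=
          mul_le_mul_of_nonneg_left hC (by positivity)
      _ = G * (δ ^ 2 * (k * N) + S * (N * k)) := by ring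
      _ ≤ G * (((N + 1 - k) * (N - k)) * δ ^ 2) := by
          refine mul_le_mul_of_nonneg_left ?_ hG0
          linarith
  exact le_of_mul_le_mul_right h9 (mul_pos hP hδ2)

end Pool.Agent.H49.L
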