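import Mathlib
import Pool.Agent.H49.L.NSA

open Finset
open scoped BigOperators

namespace Pool.Agent.H49.L

open Pool.Agent.H49.MMS

variable {α : Type} [DecidableEq α]

theorem PP_div (w : α → ℝ) (M : Finset α) (σ : ℝ) (i : ℕ) :
    PP (fun a => w a / σ) M i = PP w M i / σ ^ i := by
  unfold PP
  rw [Finset.sum_div]
  exact Finset.sum_congr rfl fun a _ => by rw [div_pow]

/-- a large negative entry (mass `B = β ^ 2`), the rest has quadratic mass `V` -/
theorem piece (x w : α → ℝ) (M : Finset α) (k : ℕ) (hM : 16 ≤ M.card) (hk : 1 ≤ k)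
    (hkM : 8 * k ≤ M.card) (h1 : PP w M 1 = 0) (β : ℝ) (hβ : 0 < β)
    (hx : ∀ K ∈ M.powersetCard k, (k : ℝ) * (β / M.card) + ∑ a ∈ K, w a ≤ 0 + ∑ a ∈ K, x a)
    (hV0 : 0 < PP w M 2)
    (h s τ m : ℝ) (hh : 0 ≤ h) (hs : 0 < s) (hτ0 : 285 / 1000 ≤ τ) (hτ : τ ≤ 1 / 2) (hm : 0 ≤ m)
    (hhV : h ^ 2 * PP w M 2 ≤ β ^ 2) (hV4 : PP w M 2 ≤ 4 * β ^ 2)
    (hmV : 17 / 100 ≤ m ^ 2 * PP w M 2) (hτV : 17 / 100 ≤ τ * PP w M 2)
    (hpos : ∀ a ∈ M, 0 < w a → w a ^ 2 ≤ 17 / 100)
    (hnum : ∀ p : ℝ, 0 < p → p ≤ 1 / 8 → p ≤ 206 / 1000 * (1 - p) * G0 p h s τ m ∧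
      23 * Y0 p h s m ≤ 7 * X0 p h s τ) :
    ((M.card).choose (k - 1) : ℝ) ≤ cnt x M k 0 := by
  by_cases hbig : ∃ c ∈ M, τ * PP w M 2 < w c ^ 2
  · obtain ⟨c, hc, hc2⟩ := hbig
    have hcn : w c < 0 := by
      by_contra hge
      push Not at hge
      rcases hge.lt_or_eq with h0 | h0
      · have := hpos c hc h0; linarith
      · rw [← h0] at hc2
        have : 0 ≤ τ * PP w M 2 := mul_nonneg (by linarith) hV0.le
        norm_num at hc2; linarith
    refine two_neg x w M k hM hk hkM h1 β hβ hV4 c hc hcn ?_ hx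
    have := mul_le_mul_of_nonneg_right hτ0 hV0.le
    linarith
  push Not at hbig
  set V := PP w M 2 with hV
  set σ := Real.sqrt V with hσ
  have hσ0 : 0 < σ := Real.sqrt_pos.2 hV0
  have hσ2 : σ ^ 2 = V := Real.sq_sqrt hV0.le
  have hN : (16 : ℝ) ≤ M.card := by exact_mod_cast hM
  have hkR : (1 : ℝ) ≤ k := by exact_mod_cast hk
  have hkM' : (8 : ℝ) * k ≤ M.card := by exact_mod_cast hkM
  set N : ℝ := (M.card : ℝ) with hNd
  have hN0 : 0 < N := by linarith
  set p : ℝ := (k : ℝ) / N with hp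
  have hp0 : 0 < p := div_pos (by linarith) hN0
  have hp8 : p ≤ 1 / 8 := by rw [hp, div_le_div_iff₀ hN0 (by norm_num)]; linarith
  obtain ⟨hn1, hn2⟩ := hnum p hp0 hp8
  have q1 : PP (fun a => w a / σ) M 1 = 0 := by rw [PP_div, h1, zero_div]
  have q2 : PP (fun a => w a / σ) M 2 = 1 := by
    rw [PP_div, hσ2]; exact div_self hV0.ne'
  have hwσ : ∀ a ∈ M, (w a / σ) ^ 2 ≤ τ := by
    intro a ha
    rw [div_pow, hσ2, div_le_iff₀ hV0]
    exact hbig a ha
  have hwm : ∀ a ∈ M, w a / σ ≤ m := by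
    intro a ha
    by_cases h0 : 0 < w a
    · rw [div_le_iff₀ hσ0]
      refine le_of_sq_le_sq ?_ (mul_nonneg hm hσ0.le)
      have := hpos a ha h0
      rw [mul_pow, hσ2]; linarith
    · push Not at h0
      exact le_trans (div_nonpos_of_nonpos_of_nonneg h0 hσ0.le) hm
  have q4 : PP (fun a => w a / σ) M 4 ≤ τ := by
    have : PP (fun a => w a / σ) M 4 ≤ τ * PP (fun a => w a / σ) M 2 := by
      unfold PP
      rw [Finset.mul_sum]
      refine Finset.sum_le_sum fun a ha => ?_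
      have h5 := hwσ a ha
      have h6 : 0 ≤ (w a / σ) ^ 2 := sq_nonneg _
      nlinarith
    rw [q2, mul_one] at this
    exact this
  have q3 : PP (fun a => w a / σ) M 3 ≤ m := by
    have : PP (fun a => w a / σ) M 3 ≤ m * PP (fun a => w a / σ) M 2 := by
      unfold PP
      rw [Finset.mul_sum]
      refine Finset.sum_le_sum fun a ha => ?_
      have h5 := hwm a ha
      have h6 : 0 ≤ (w a / σ) ^ 2 := sq_nonneg _
      nlinarith
    rw [q2, mul_one] at this
    exact this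
  have hcore := core (fun a => w a / σ) M k hM hk (by omega) q1 q2 τ m h s q4 q3 hh hs hτ hm
    (by rw [← hNd, ← hp]; exact hn2)
  rw [← hNd, ← hp] at hcore
  -- compare with the count
  have hle : ev (fun a => w a / σ) M k (p * h) (2 / s) ≤ cnt x M k 0 := by
    unfold ev cnt
    refine Finset.sum_le_sum fun K hK => ?_
    have h5 := hx K hK
    have h6 : h * σ ≤ β := by
      refine le_of_sq_le_sq ?_ hβ.le
      rw [mul_pow, hσ2]; exact hhV
    have h7 : p * h * σ ≤ (k : ℝ) * (β / N) := by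
      have : p * h * σ = p * (h * σ) := by ring
      rw [this, hp]
      have e : (k : ℝ) * (β / N) = k / N * β := by ring
      rw [e]
      exact mul_le_mul_of_nonneg_left h6 (by positivity)
    split_ifs with c1 c2 c2
    · exact le_rfl
    · exfalso
      apply c2
      have h8 : ∑ a ∈ K, w a / σ = (∑ a ∈ K, w a) / σ := (Finset.sum_div _ _ _).symm
      rw [h8] at c1
      have h9 : 0 < (p * h + (∑ a ∈ K, w a) / σ) * σ := mul_pos c1.1 hσ0
      rw [add_mul, div_mul_cancel₀ _ hσ0.ne'] at h9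
      linarith
    · norm_num
    · exact le_rfl
  have h3 := hcore.trans hle
  -- binomials
  have r2 : ((M.card).choose (k - 1) : ℝ) * (N + 1 - k) = ((M.card).choose k : ℝ) * k := by
    obtain ⟨k', rfl⟩ : ∃ k', k = k' + 1 := ⟨k - 1, by omega⟩
    have h := Nat.choose_succ_right_eq M.card k'
    have hk'n : k' ≤ M.card := by omega
    have h' : (((M.card).choose (k' + 1) * (k' + 1) : ℕ) : ℝ) =
      (((M.card).choose k' * (M.card - k') : ℕ) : ℝ) := by rw [h]
    push_cast [Nat.cast_sub hk'n] at h'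
    simp only [Nat.add_sub_cancel]
    push_cast
    rw [hNd]
    linarith
  set Ca := ((M.card).choose (k - 1) : ℝ) with hCa
  set Cb := ((M.card).choose k : ℝ) with hCb
  have hCa0 : 0 ≤ Ca := by positivity
  have hCb0 : 0 ≤ Cb := by positivity
  -- Ca (N - k) ≤ Cb k = Cb N p ≤ Cb N (1-p) * .206 G0 = Cb (N - k) .206 G0
  have hNk : 0 < N - k := by linarith
  have h4 : Ca * (N - k) ≤ (206 / 1000 * Cb * G0 p h s τ m) * (N - k) := by
    calc Ca * (N - k) ≤ Ca * (N + 1 - k) := mul_le_mul_of_nonneg_left (by linarith) hCa0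
      _ = Cb * k := r2
      _ = Cb * (N * p) := by rw [hp]; field_simp
      _ ≤ Cb * (N * (206 / 1000 * (1 - p) * G0 p h s τ m)) :=
          mul_le_mul_of_nonneg_left (mul_le_mul_of_nonneg_left hn1 hN0.le) hCb0
      _ = (206 / 1000 * Cb * G0 p h s τ m) * (N * (1 - p)) := by ring
      _ = (206 / 1000 * Cb * G0 p h s τ m) * (N - k) := by
          congr 1; rw [hp]; field_simp
  exact (le_of_mul_le_mul_right h4 hNk).trans h3

/-- a very large negative entry -/
theorem big_neg (x w : α → ℝ) (M : Finset α) (k : ℕ) (hM : 16 ≤ M.card) (hk : 1 ≤ k)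
    (hkM : 8 * k ≤ M.card) (h1 : PP w M 1 = 0) (β : ℝ) (hβ : 0 < β) (hβ2 : 56 / 100 ≤ β ^ 2)
    (hx : ∀ K ∈ M.powersetCard k, (k : ℝ) * (β / M.card) + ∑ a ∈ K, w a ≤ 0 + ∑ a ∈ K, x a)
    (hV : PP w M 2 = 1 - β ^ 2 - β ^ 2 / M.card) :
    ((M.card).choose (k - 1) : ℝ) ≤ cnt x M k 0 := by
  have hN : (16 : ℝ) ≤ M.card := by exact_mod_cast hM
  have hkR : (1 : ℝ) ≤ k := by exact_mod_cast hk
  have hkM' : (8 : ℝ) * k ≤ M.card := by exact_mod_cast hkM
  have hδ0 : 0 < (k : ℝ) * (β / M.card) := by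
    have : (0 : ℝ) < M.card := by linarith
    positivity
  have hC := cant x w M k (by omega) (by omega) h1 ((k : ℝ) * (β / M.card)) 0 hδ0 hx
  rw [hV] at hC
  set N : ℝ := (M.card : ℝ) with hNd
  have hN0 : 0 < N := by linarith
  have hN1 : 0 < N - 1 := by linarith
  have r2 : ((M.card).choose (k - 1) : ℝ) * (N + 1 - k) = ((M.card).choose k : ℝ) * k := by
    obtain ⟨k', rfl⟩ : ∃ k', k = k' + 1 := ⟨k - 1, by omega⟩
    have h := Nat.choose_succ_right_eq M.card k'
    have hk'n : k' ≤ M.card := by omega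
    have h' : (((M.card).choose (k' + 1) * (k' + 1) : ℕ) : ℝ) =
      (((M.card).choose k' * (M.card - k') : ℕ) : ℝ) := by rw [h]
    push_cast [Nat.cast_sub hk'n] at h'
    simp only [Nat.add_sub_cancel]
    push_cast
    rw [hNd]
    linarith
  set Ca := ((M.card).choose (k - 1) : ℝ) with hCa
  set Cb := ((M.card).choose k : ℝ) with hCb
  set G := cnt x M k 0 with hG
  have hG0 : 0 ≤ G := cnt_nonneg _ _ _ _
  set S := fa N k * (1 - β ^ 2 - β ^ 2 / N) with hS
  set δ := (k : ℝ) * (β / N) with hδ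
  have hkey : S * k ≤ δ ^ 2 * (N + 1 - 2 * k) := by
    have e1 : S * k = (k : ℝ) ^ 2 * ((N - k) * (N - (N + 1) * β ^ 2)) / (N ^ 2 * (N - 1)) := by
      rw [hS]; unfold fa; field_simp; ring
    have e2 : δ ^ 2 * (N + 1 - 2 * k) =
        (k : ℝ) ^ 2 * ((N + 1 - 2 * k) * (N - 1) * β ^ 2) / (N ^ 2 * (N - 1)) := by
      rw [hδ]; field_simp
    rw [e1, e2]
    refine div_le_div_of_nonneg_right ?_ (by positivity)
    refine mul_le_mul_of_nonneg_left ?_ (by positivity)
    have hco : 0 ≤ (N + 1 - 2 * k) * (N - 1) + (N - k) * (N + 1) := by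
      have : 0 ≤ (N + 1 - 2 * k) * (N - 1) := mul_nonneg (by linarith) hN1.le
      have : 0 ≤ (N - k) * (N + 1) := mul_nonneg (by linarith) (by linarith)
      linarith
    have h5 := mul_le_mul_of_nonneg_right hβ2 hco
    have h6 : (N - k) * N ≤ 56 / 100 * ((N + 1 - 2 * k) * (N - 1) + (N - k) * (N + 1)) := by
      nlinarith
    nlinarith
  have hδ2 : 0 < δ ^ 2 := by positivity
  have hNk : 0 < N + 1 - k := by linarith
  have h9 : Ca * ((N + 1 - k) * δ ^ 2) ≤ G * ((N + 1 - k) * δ ^ 2) := by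
    calc Ca * ((N + 1 - k) * δ ^ 2) = k * (Cb * δ ^ 2) := by
          rw [← mul_assoc, r2]; ring
      _ ≤ k * ((δ ^ 2 + S) * G) := mul_le_mul_of_nonneg_left hC (by positivity)
      _ = G * (δ ^ 2 * k + S * k) := by ring
      _ ≤ G * ((N + 1 - k) * δ ^ 2) := by
          refine mul_le_mul_of_nonneg_left ?_ hG0
          linarith
  exact le_of_mul_le_mul_right h9 (mul_pos hNk hδ2)

end Pool.Agent.H49.L
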