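import Mathlib
import Pool.Agent.H49.L.NSB

open Finset
open scoped BigOperators

namespace Pool.Agent.H49.L

open Pool.Agent.H49.MMS

variable {α : Type} [Fintype α] [DecidableEq α]

/-- all entries small -/
theorem all_small (x u : α → ℝ) (xb : ℝ) (hxb : 0 < xb) (hx : ∀ a, x a = xb + u a)
    (hu : ∑ a, u a = 0) (hu2 : ∑ a, u a ^ 2 = 1) (k : ℕ) (hk : 1 ≤ k)
    (hn : 8 * k ≤ Fintype.card α) (hn16 : 16 ≤ Fintype.card α)
    (h4 : ∑ a, u a ^ 4 ≤ 1 / 5) :
    ((Fintype.card α - 1).choose (k - 1) : ℝ) ≤ goodC x k := by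
  have hM : (univ : Finset α).card = Fintype.card α := Finset.card_univ
  have q1 : PP u univ 1 = 0 := by unfold PP; simpa using hu
  have hN : (16 : ℝ) ≤ (Fintype.card α : ℝ) := by exact_mod_cast hn16
  have hkR : (1 : ℝ) ≤ k := by exact_mod_cast hk
  have hkM' : (8 : ℝ) * k ≤ Fintype.card α := by exact_mod_cast hn
  set N : ℝ := (Fintype.card α : ℝ) with hNd
  have hN0 : 0 < N := by linarith
  have hp0 : 0 < (k : ℝ) / N := div_pos (by linarith) hN0
  have hp8 : (k : ℝ) / N ≤ 1 / 8 := by rw [div_le_div_iff₀ hN0 (by norm_num)]; linarith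
  have q3 : PP u univ 3 ≤ 1 := by
    have : PP u univ 3 ≤ PP u univ 2 := by
      unfold PP
      refine Finset.sum_le_sum fun a _ => ?_
      have h5 : u a ^ 2 ≤ 1 := by
        rw [← hu2]
        exact Finset.single_le_sum (f := fun a => u a ^ 2) (fun a _ => sq_nonneg _)
          (Finset.mem_univ a)
      have h6 : u a ≤ 1 := by nlinarith
      nlinarith [sq_nonneg (u a)]
    refine this.trans (le_of_eq hu2)
  have hcore := core u univ k (by rw [hM]; exact hn16) hk (by rw [hM]; omega) q1 hu2 (1 / 5) 1 0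
    (195 / 100) h4 q3 le_rfl (by norm_num) (by norm_num) (by norm_num) (by
      rw [hM, ← hNd]
      unfold Y0 X0
      have : 4 * ((k : ℝ) / N) * 0 * 1 * (1 - 2 * (k / N)) * (195 / 100) ^ 4 = 0 := by ring
      rw [this]; norm_num)
  rw [hM, ← hNd] at hcore
  have hG : G0 ((k : ℝ) / N) 0 (195 / 100) (1 / 5) 1 = G0 ((k : ℝ) / N) 0 (195 / 100) (1 / 5) 0 := by
    unfold G0 Y0; ring
  rw [hG] at hcore
  have hnum := numA ((k : ℝ) / N) hp0 hp8
  have hle : ev u univ k ((k : ℝ) / N * 0) (2 / (195 / 100)) ≤ cnt x univ k 0 := by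
    refine ev_le_cnt x u univ k _ _ 0 ?_
    intro K hK
    have hKc := (Finset.mem_powersetCard.1 hK).2
    simp only [hx]
    rw [Finset.sum_add_distrib, Finset.sum_const, hKc, nsmul_eq_mul]
    have : 0 ≤ (k : ℝ) * xb := by positivity
    linarith
  rw [goodC_eq]
  refine le_trans ?_ (hcore.trans hle)
  have hrel : ((Fintype.card α - 1).choose (k - 1) : ℝ) * N =
      ((Fintype.card α).choose k : ℝ) * k := by
    have h := Nat.add_one_mul_choose_eq (Fintype.card α - 1) (k - 1)
    have e1 : Fintype.card α - 1 + 1 = Fintype.card α := by omega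
    have e2 : k - 1 + 1 = k := by omega
    rw [e1, e2] at h
    have h' : ((Fintype.card α * (Fintype.card α - 1).choose (k - 1) : ℕ) : ℝ) =
      (((Fintype.card α).choose k * k : ℕ) : ℝ) := by rw [h]
    push_cast at h'
    rw [← h']; ring
  have hC0 : (0 : ℝ) ≤ ((Fintype.card α).choose k : ℝ) := by positivity
  have h6 : ((Fintype.card α - 1).choose (k - 1) : ℝ) =
      ((Fintype.card α).choose k : ℝ) * (k / N) := by
    rw [mul_div_assoc', ← hrel]; field_simp
  rw [h6]
  have := mul_le_mul_of_nonneg_left hnum hC0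
  linarith

/-- the case without a large positive entry -/
theorem NS (x u : α → ℝ) (xb : ℝ) (hxb : 0 < xb) (hx : ∀ a, x a = xb + u a)
    (hu : ∑ a, u a = 0) (hu2 : ∑ a, u a ^ 2 = 1) (k : ℕ) (hk : 2 ≤ k)
    (hn : 8 * k + 1 ≤ Fintype.card α)
    (hns : ∀ a, 0 < u a → u a ^ 2 ≤ 17 / 100) :
    ((Fintype.card α - 1).choose (k - 1) : ℝ) ≤ goodC x k := by
  by_cases h4 : ∑ a, u a ^ 4 ≤ 1 / 5
  · exact all_small x u xb hxb hx hu hu2 k (by omega) (by omega) (by omega) h4
  have hex : ∃ b, 1 / 5 < u b ^ 2 := by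
    by_contra hc
    push Not at hc
    apply h4
    have : ∑ a, u a ^ 4 ≤ ∑ a, 1 / 5 * u a ^ 2 := by
      refine Finset.sum_le_sum fun a _ => ?_
      have := hc a
      nlinarith [sq_nonneg (u a)]
    rw [← Finset.mul_sum, hu2] at this
    linarith
  obtain ⟨b, hb⟩ := hex
  have hbn : u b < 0 := by
    by_contra hge
    push Not at hge
    rcases hge.lt_or_eq with h0 | h0
    · have := hns b h0; linarith
    · rw [← h0] at hb; norm_num at hb
  set β : ℝ := - u b with hβd
  have hβ : 0 < β := by rw [hβd]; linarith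
  have hβ2 : 1 / 5 < β ^ 2 := by rw [hβd, neg_sq]; exact hb
  set M : Finset α := univ.erase b with hMd
  have hMc : M.card = Fintype.card α - 1 := by
    rw [hMd, Finset.card_erase_of_mem (Finset.mem_univ _), Finset.card_univ]
  have hM16 : 16 ≤ M.card := by omega
  have hkM : 8 * k ≤ M.card := by omega
  have hN : (16 : ℝ) ≤ M.card := by exact_mod_cast hM16
  set N : ℝ := (M.card : ℝ) with hNd
  have hN0 : 0 < N := by linarith
  have hs1 : ∑ a ∈ M, u a = β := by
    have h := Finset.sum_erase_add univ u (Finset.mem_univ b)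
    rw [← hMd] at h; rw [hβd]; linarith
  have hs2 : ∑ a ∈ M, u a ^ 2 = 1 - β ^ 2 := by
    have h := Finset.sum_erase_add univ (fun a => u a ^ 2) (Finset.mem_univ b)
    rw [← hMd] at h; rw [hβd, neg_sq]; linarith
  have p1 := PP_rec1 u M N rfl hN0 β hs1
  have p2 := PP_rec2 u M N rfl hN0 β hs1
  rw [hs2] at p2
  set w : α → ℝ := fun a => u a - β / N with hw
  have hxM : ∀ K ∈ M.powersetCard k, (k : ℝ) * (β / M.card) + ∑ a ∈ K, w a ≤
      0 + ∑ a ∈ K, x a := by
    intro K hK
    have hKc := (Finset.mem_powersetCard.1 hK).2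
    simp only [hw, hx]
    rw [Finset.sum_sub_distrib, Finset.sum_add_distrib, Finset.sum_const, Finset.sum_const, hKc,
      nsmul_eq_mul, nsmul_eq_mul, ← hNd]
    have : 0 ≤ (k : ℝ) * xb := by positivity
    linarith
  have hgoal : ((M.card).choose (k - 1) : ℝ) ≤ cnt x M k 0 := by
    by_cases h56 : 56 / 100 ≤ β ^ 2
    · exact big_neg x w M k hM16 (by omega) hkM p1 β hβ h56 hxM p2
    push Not at h56
    have hVlo : 1 - 17 / 16 * β ^ 2 ≤ PP w M 2 := by
      rw [p2]
      have : β ^ 2 / N ≤ β ^ 2 / 16 := div_le_div_of_nonneg_left (by positivity) (by norm_num) hN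
      linarith
    have hVhi : PP w M 2 ≤ 1 - β ^ 2 := by
      rw [p2]
      have : 0 ≤ β ^ 2 / N := by positivity
      linarith
    have hpos : ∀ a ∈ M, 0 < w a → w a ^ 2 ≤ 17 / 100 := by
      intro a _ ha
      have h0 : 0 ≤ β / N := by positivity
      have h1 : w a ≤ u a := by simp only [hw]; linarith
      have h2 := hns a (lt_of_lt_of_le ha h1)
      nlinarith
    have hV0 : 0 < PP w M 2 := by nlinarith
    by_cases h25 : β ^ 2 ≤ 1 / 4
    · exact piece x w M k hM16 (by omega) hkM p1 β hβ hxM hV0 (1 / 2) (178 / 100) (285 / 1000)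
        (482 / 1000) (by norm_num) (by norm_num) (by norm_num) (by norm_num) (by norm_num)
        (by nlinarith) (by nlinarith) (by nlinarith) (by nlinarith) hpos num1
    push Not at h25
    by_cases h33 : β ^ 2 ≤ 33 / 100
    · exact piece x w M k hM16 (by omega) hkM p1 β hβ hxM hV0 (577 / 1000) (175 / 100) (3 / 10)
        (512 / 1000) (by norm_num) (by norm_num) (by norm_num) (by norm_num) (by norm_num)
        (by nlinarith) (by nlinarith) (by nlinarith) (by nlinarith) hpos num2
    push Not at h33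
    by_cases h45 : β ^ 2 ≤ 45 / 100
    · exact piece x w M k hM16 (by omega) hkM p1 β hβ hxM hV0 (7 / 10) (17 / 10) (33 / 100)
        (571 / 1000) (by norm_num) (by norm_num) (by norm_num) (by norm_num) (by norm_num)
        (by nlinarith) (by nlinarith) (by nlinarith) (by nlinarith) hpos num3
    push Not at h45
    exact piece x w M k hM16 (by omega) hkM p1 β hβ hxM hV0 (9 / 10) (155 / 100) (42 / 100)
        (648 / 1000) (by norm_num) (by norm_num) (by norm_num) (by norm_num) (by norm_num)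
        (by nlinarith) (by nlinarith) (by nlinarith) (by nlinarith) hpos num4
  rw [hMc] at hgoal
  rw [goodC_eq]
  exact hgoal.trans (cnt_mono_set x univ M (Finset.subset_univ _) k 0)

end Pool.Agent.H49.L
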