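import Mathlib
import Pool.Agent.H49.L.NSC

open Finset
open scoped BigOperators

namespace Pool.Agent.H49.L

open Pool.Agent.H49.MMS

variable {α : Type} [DecidableEq α]

theorem ev_mono_hi (v : α → ℝ) (M : Finset α) (k : ℕ) (δ hi hi' : ℝ) (h : hi ≤ hi') :
    ev v M k δ hi ≤ ev v M k δ hi' := by
  unfold ev
  refine Finset.sum_le_sum fun K _ => ?_
  split_ifs with h1 h2 h2
  · exact le_rfl
  · exact absurd ⟨h1.1, lt_of_lt_of_le h1.2 h⟩ h2
  · norm_num
  · exact le_rfl

/-- sub-count: sets avoiding `b` -/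
theorem ev_avoid (v : α → ℝ) (Y : Finset α) (k : ℕ) (b : α) (c hi : ℝ) :
    ev (fun a => v a - c) (Y.erase b) k ((k : ℝ) * c) hi ≤ ev v Y k 0 hi := by
  unfold ev
  refine (Finset.sum_le_sum (g := fun K => if 0 < 0 + ∑ a ∈ K, v a ∧ 0 + ∑ a ∈ K, v a < hi
    then (1 : ℝ) else 0) ?_).trans ?_
  · intro K hK
    have hKc := (Finset.mem_powersetCard.1 hK).2
    have e : (k : ℝ) * c + ∑ a ∈ K, (v a - c) = 0 + ∑ a ∈ K, v a := by
      rw [Finset.sum_sub_distrib, Finset.sum_const, hKc, nsmul_eq_mul]; ring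
    rw [e]
  · refine Finset.sum_le_sum_of_subset_of_nonneg
      (Finset.powersetCard_mono (Finset.erase_subset _ _)) ?_
    intro K _ _
    split_ifs <;> norm_num

/-- sub-count: sets containing `b` -/
theorem ev_through (v : α → ℝ) (Y : Finset α) (k : ℕ) (hk : 1 ≤ k) (b : α) (hb : b ∈ Y)
    (c hi : ℝ) :
    ev (fun a => v a - c) (Y.erase b) (k - 1) (v b + ((k - 1 : ℕ) : ℝ) * c) hi ≤
      ev v Y k 0 hi := by
  obtain ⟨k, rfl⟩ : ∃ k', k = k' + 1 := ⟨k - 1, by omega⟩
  simp only [Nat.add_sub_cancel]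
  unfold ev
  have hY : Y = insert b (Y.erase b) := (Finset.insert_erase hb).symm
  have hsplit := sum_pcs (Y.erase b) k b (Finset.notMem_erase _ _)
    (fun K => if 0 < 0 + ∑ a ∈ K, v a ∧ 0 + ∑ a ∈ K, v a < hi then (1 : ℝ) else 0)
  rw [← hY] at hsplit
  rw [hsplit]
  have h0 : 0 ≤ ∑ K ∈ (Y.erase b).powersetCard (k + 1),
      (if 0 < 0 + ∑ a ∈ K, v a ∧ 0 + ∑ a ∈ K, v a < hi then (1 : ℝ) else 0) :=
    Finset.sum_nonneg fun K _ => by split_ifs <;> norm_num
  refine le_trans (Finset.sum_le_sum ?_) (le_add_of_nonneg_left h0)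
  intro K hK
  obtain ⟨hKs, hKc⟩ := Finset.mem_powersetCard.1 hK
  have hbK : b ∉ K := fun h => (Finset.notMem_erase b Y) (hKs h)
  have e : v b + (k : ℝ) * c + ∑ a ∈ K, (v a - c) = 0 + ∑ a ∈ insert b K, v a := by
    rw [Finset.sum_sub_distrib, Finset.sum_const, hKc, nsmul_eq_mul, Finset.sum_insert hbK]; ring
  rw [e]

/-- normalised lower bound for the number of `k`-subsets with moderate positive sum -/
theorem mod_norm (v : α → ℝ) (Y : Finset α) (k : ℕ) (hk : 2 ≤ k) (hY15 : 15 ≤ Y.card)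
    (hY7 : 7 * k + 1 ≤ Y.card) (hY8 : Y.card + 1 ≤ 8 * k)
    (h1 : PP v Y 1 = 0) (h2 : PP v Y 2 = 1) :
    3 / 4 * ((Y.card).choose k : ℝ) * (k / Y.card) ≤ ev v Y k 0 (2 / (163 / 100)) := by
  have hN : (15 : ℝ) ≤ Y.card := by exact_mod_cast hY15
  have hkR : (2 : ℝ) ≤ k := by exact_mod_cast hk
  have hN7 : (7 : ℝ) * k + 1 ≤ Y.card := by exact_mod_cast hY7
  have hN8 : (Y.card : ℝ) + 1 ≤ 8 * k := by exact_mod_cast hY8
  set N : ℝ := (Y.card : ℝ) with hNd
  have hN0 : 0 < N := by linarith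
  have hN1 : 0 < N - 1 := by linarith
  have hN2 : 0 < N - 2 := by linarith
  have hC0 : (0 : ℝ) ≤ ((Y.card).choose k : ℝ) := by positivity
  set p : ℝ := (k : ℝ) / N with hp
  have hp0 : 0 < p := div_pos (by linarith) hN0
  have hp7 : p ≤ 1 / 7 := by rw [hp, div_le_div_iff₀ hN0 (by norm_num)]; linarith
  by_cases h4 : PP v Y 4 ≤ 1 / 2
  · -- spread case
    have hA : 6 * (p * (1 - p)) ≤ 1 := by nlinarith
    have h6 := six_fb N k (by linarith) (by linarith) (by linarith) hA
    have ha := fa_ge N k (by linarith) (by linarith) (by linarith)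
    rw [← hp] at ha
    have hL := L2 v Y k (by omega) h1 0 (173 / 100) (by norm_num)
    rw [h2, ← hNd] at hL
    have hmono := ev_mono_hi v Y k 0 (2 / (173 / 100)) (2 / (163 / 100)) (by norm_num)
    refine le_trans ?_ (hL.trans hmono)
    have b1 : (fa N k - 6 * fb N k) * PP v Y 4 ≤ (fa N k - 6 * fb N k) * (1 / 2) :=
      mul_le_mul_of_nonneg_left h4 (by linarith)
    have b2 : 3 / 4 * p ≤ 206 / 1000 * (2 * (173 / 100) * 0 + 3 * (173 / 100) ^ 2 *
        (fa N k * 1 + 0 ^ 2) - (173 / 100) ^ 4 * (((fa N k - 6 * fb N k) * PP v Y 4 +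
        3 * fb N k * (1 : ℝ) ^ 2) + 4 * 0 * (fc N k * PP v Y 3) + 6 * 0 ^ 2 * (fa N k * 1) +
        0 ^ 4)) := by
      have b3 : p * (6 / 7) ≤ fa N k := by nlinarith
      nlinarith
    have := mul_le_mul_of_nonneg_left b2 hC0
    linarith
  push Not at h4
  have hex : ∃ b ∈ Y, 1 / 2 < v b ^ 2 := by
    by_contra hc
    push Not at hc
    have : PP v Y 4 ≤ 1 / 2 * PP v Y 2 := by
      unfold PP
      rw [Finset.mul_sum]
      refine Finset.sum_le_sum fun a ha => ?_
      have := hc a ha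
      nlinarith [sq_nonneg (v a)]
    rw [h2] at this
    linarith
  obtain ⟨b, hb, hb2⟩ := hex
  have hYc : (Y.erase b).card = Y.card - 1 := Finset.card_erase_of_mem hb
  have hYR : ((Y.erase b).card : ℝ) = N - 1 := by
    rw [hYc, Nat.cast_sub (by omega)]; push_cast; ring
  have hs1 : ∑ a ∈ Y.erase b, v a = - v b := by
    have h := Finset.sum_erase_add Y v hb
    have h' : ∑ a ∈ Y, v a = 0 := by
      have := h1; unfold PP at this; simpa using this
    linarith
  have hs2 : ∑ a ∈ Y.erase b, v a ^ 2 = 1 - v b ^ 2 := by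
    have h := Finset.sum_erase_add Y (fun a => v a ^ 2) hb
    have h' : ∑ a ∈ Y, v a ^ 2 = 1 := h2
    linarith
  have q1 := PP_rec1 v (Y.erase b) (N - 1) hYR hN1 (- v b) hs1
  have q2 := PP_rec2 v (Y.erase b) (N - 1) hYR hN1 (- v b) hs1
  rw [hs2] at q2
  have hV2 : 0 ≤ 1 - v b ^ 2 - (- v b) ^ 2 / (N - 1) := by
    rw [← q2]; exact Finset.sum_nonneg fun a _ => sq_nonneg _
  set t2 : ℝ := v b ^ 2 with ht2
  rw [neg_sq, ← ht2] at hV2 q2
  set g : ℝ := (N - k) / (N - 1) with hg
  have hg6 : 6 / 7 ≤ g := by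
    rw [hg, le_div_iff₀ hN1]; linarith
  have hg1 : g ≤ 1 := by
    rw [hg, div_le_one hN1]; linarith
  have hbpos : v b ≠ 0 := by
    intro h0; rw [ht2, h0] at hb2; norm_num at hb2
  rcases lt_or_gt_of_ne hbpos with hneg | hpos
  · -- negative big entry
    set β : ℝ := - v b with hβ
    have hβ0 : 0 < β := by rw [hβ]; linarith
    have hβ2 : β ^ 2 = t2 := by rw [hβ, neg_sq]
    have hav := ev_avoid v Y k b (β / (N - 1)) (2 / (163 / 100))
    refine le_trans ?_ hav
    have hQ := Q2 (fun a => v a - β / (N - 1)) (Y.erase b) k (by omega) q1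
      ((k : ℝ) * (β / (N - 1))) (163 / 100) (by norm_num)
    rw [q2, hYR] at hQ
    refine le_trans ?_ hQ
    have r1 : ((Y.card).choose k : ℝ) * (N - k) = (((Y.erase b).card).choose k : ℝ) * N := by
      have h := Nat.choose_mul_succ_eq (Y.card - 1) k
      have e1 : Y.card - 1 + 1 = Y.card := by omega
      rw [e1] at h
      have h' : (((Y.card - 1).choose k * Y.card : ℕ) : ℝ) =
        (((Y.card).choose k * (Y.card - k) : ℕ) : ℝ) := by rw [h]
      have hkn1 : k ≤ Y.card := by omega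
      push_cast [Nat.cast_sub hkn1] at h'
      rw [hYc, ← h', hNd]
    set C1 := (((Y.erase b).card).choose k : ℝ) with hC1
    have hC10 : 0 ≤ C1 := by positivity
    have hkey : 3 / 4 * k ≤ (N - k) * (2 * (163 / 100) * ((k : ℝ) * (β / (N - 1))) -
        (163 / 100) ^ 2 * (fa (N - 1) k * (1 - t2 - t2 / (N - 1)) +
          ((k : ℝ) * (β / (N - 1))) ^ 2)) := by
      have hfa : fa (N - 1) k ≤ (k / (N - 1)) * g := by
        have e : fa (N - 1) k = (k / (N - 1)) * ((N - 1 - k) / (N - 2)) := by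
          have h3 : N - 1 - 1 = N - 2 := by ring
          unfold fa; rw [h3]; field_simp
        rw [e]
        refine mul_le_mul_of_nonneg_left ?_ (by positivity)
        rw [hg, div_le_div_iff₀ hN2 hN1]
        nlinarith
      have hV : 1 - t2 - t2 / (N - 1) ≤ 1 - t2 := by
        have : 0 ≤ t2 / (N - 1) := by positivity
        linarith
      have ht1 : 0 ≤ 1 - t2 := by
        have : 0 ≤ t2 / (N - 1) := by positivity
        linarith
      have hfaV : fa (N - 1) k * (1 - t2 - t2 / (N - 1)) ≤ (k / (N - 1)) * g * (1 - t2) := by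
        have hg0 : 0 ≤ (k / (N - 1)) * g := by positivity
        exact mul_le_mul hfa hV hV2 hg0
      have hp1 : (k : ℝ) / (N - 1) ≤ 1 / 7 := by
        rw [div_le_div_iff₀ hN1 (by norm_num)]; linarith
      have hlow : 3 / 4 ≤ g * (2 * (163 / 100) * β - (163 / 100) ^ 2 * (g * (1 - t2) +
          t2 / 7)) := by
        have hb7 : 7 / 10 ≤ β := by
          refine le_of_sq_le_sq ?_ hβ0.le
          rw [hβ2]; linarith
        have hb1 : β ≤ 1 := by
          refine le_of_sq_le_sq ?_ (by norm_num)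
          rw [hβ2]; linarith
        have hin : 20922 / 10000 - 132845 / 100000 * g ≤
            2 * (163 / 100) * β - (163 / 100) ^ 2 * (g * (1 - t2) + t2 / 7) := by
          have h5 : 0 ≤ (t2 - 1 / 2) * (g - 1 / 7) := mul_nonneg (by linarith) (by linarith)
          nlinarith
        have hgg : 0 ≤ (g - 6 / 7) * (1 - g) := mul_nonneg (by linarith) (by linarith)
        have h6 := mul_le_mul_of_nonneg_left hin (show (0:ℝ) ≤ g by linarith)
        nlinarith
      have hδ2 : ((k : ℝ) * (β / (N - 1))) ^ 2 ≤ (k / (N - 1)) * (t2 / 7) := by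
        have e : ((k : ℝ) * (β / (N - 1))) ^ 2 = (k / (N - 1)) * ((k / (N - 1)) * t2) := by
          rw [← hβ2]; field_simp
        rw [e]
        refine mul_le_mul_of_nonneg_left ?_ (by positivity)
        have := mul_le_mul_of_nonneg_right hp1 (show (0:ℝ) ≤ t2 by linarith)
        linarith
      have hEge : (k / (N - 1)) * (2 * (163 / 100) * β - (163 / 100) ^ 2 * (g * (1 - t2) +
          t2 / 7)) ≤ 2 * (163 / 100) * ((k : ℝ) * (β / (N - 1))) -
        (163 / 100) ^ 2 * (fa (N - 1) k * (1 - t2 - t2 / (N - 1)) +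
          ((k : ℝ) * (β / (N - 1))) ^ 2) := by
        have e : (k / (N - 1)) * (2 * (163 / 100) * β) =
          2 * (163 / 100) * ((k : ℝ) * (β / (N - 1))) := by ring
        nlinarith
      have hNk : 0 < N - k := by linarith
      calc 3 / 4 * (k : ℝ) ≤ k * (g * (2 * (163 / 100) * β - (163 / 100) ^ 2 * (g * (1 - t2) +
          t2 / 7))) := by nlinarith
        _ = (N - k) * ((k / (N - 1)) * (2 * (163 / 100) * β - (163 / 100) ^ 2 * (g * (1 - t2) +
          t2 / 7))) := by rw [hg]; field_simp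
        _ ≤ _ := mul_le_mul_of_nonneg_left hEge hNk.le
    have hNk : 0 < N - k := by linarith
    set E := 2 * (163 / 100) * ((k : ℝ) * (β / (N - 1))) -
        (163 / 100) ^ 2 * (fa (N - 1) k * (1 - t2 - t2 / (N - 1)) +
          ((k : ℝ) * (β / (N - 1))) ^ 2) with hE
    have hfin : 3 / 4 * ((Y.card).choose k : ℝ) * p * (N - k) ≤ C1 * E * (N - k) := by
      calc 3 / 4 * ((Y.card).choose k : ℝ) * p * (N - k) =
          3 / 4 * p * (((Y.card).choose k : ℝ) * (N - k)) := by ring
        _ = 3 / 4 * p * (C1 * N) := by rw [r1]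
        _ = C1 * (3 / 4 * k) := by rw [hp]; field_simp
        _ ≤ C1 * ((N - k) * E) := mul_le_mul_of_nonneg_left hkey hC10
        _ = C1 * E * (N - k) := by ring
    exact le_of_mul_le_mul_right hfin hNk
  · -- positive big entry
    set t : ℝ := v b with ht
    have hth := ev_through v Y k (by omega) b hb ((- t) / (N - 1)) (2 / (163 / 100))
    rw [← ht] at hth
    refine le_trans ?_ hth
    have hQ := Q2 (fun a => v a - (- t) / (N - 1)) (Y.erase b) (k - 1) (by omega) q1
      (t + ((k - 1 : ℕ) : ℝ) * ((- t) / (N - 1))) (163 / 100) (by norm_num)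
    rw [q2, hYR] at hQ
    refine le_trans ?_ hQ
    have hk1 : ((k - 1 : ℕ) : ℝ) = k - 1 := by rw [Nat.cast_sub (by omega)]; push_cast; ring
    rw [hk1]
    have hδ : t + ((k : ℝ) - 1) * ((- t) / (N - 1)) = t * g := by
      rw [hg]; field_simp; ring
    rw [hδ]
    have hC : ((Y.card).choose k : ℝ) * (k / N) = ((Y.erase b).card.choose (k - 1) : ℝ) := by
      have h := Nat.add_one_mul_choose_eq (Y.card - 1) (k - 1)
      have e1 : Y.card - 1 + 1 = Y.card := by omega
      have e2 : k - 1 + 1 = k := by omega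
      rw [e1, e2] at h
      have h' : ((Y.card * (Y.card - 1).choose (k - 1) : ℕ) : ℝ) =
        (((Y.card).choose k * k : ℕ) : ℝ) := by rw [h]
      push_cast at h'
      rw [hYc, mul_div_assoc', ← h', ← hNd]; field_simp
    rw [mul_assoc (3 / 4 : ℝ), ← hp] at *
    rw [hC]
    have hCC : (0 : ℝ) ≤ ((Y.erase b).card.choose (k - 1) : ℝ) := by positivity
    have hkey : 3 / 4 ≤ 2 * (163 / 100) * (t * g) - (163 / 100) ^ 2 *
        (fa (N - 1) (k - 1) * (1 - t2 - t2 / (N - 1)) + (t * g) ^ 2) := by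
      have hV : 1 - t2 - t2 / (N - 1) ≤ 1 - t2 := by
        have : 0 ≤ t2 / (N - 1) := by positivity
        linarith
      have hfa : fa (N - 1) (k - 1) ≤ g / 7 := by
        have h3 : N - 1 - 1 = N - 2 := by ring
        have h4 : N - 1 - (k - 1) = N - k := by ring
        unfold fa
        rw [h3, h4, hg, div_div, div_le_div_iff₀ (by positivity) (by positivity)]
        have h5 : 7 * ((k : ℝ) - 1) ≤ N - 2 := by linarith
        have h6 : 0 ≤ (N - k) * (N - 1) := mul_nonneg (by linarith) hN1.le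
        nlinarith
      have hg13 : g ≤ 13 / 14 := by
        rw [hg, div_le_div_iff₀ hN1 (by norm_num)]; linarith
      have hfaV : fa (N - 1) (k - 1) * (1 - t2 - t2 / (N - 1)) ≤ g / 7 * (1 - t2) :=
        mul_le_mul hfa hV hV2 (by linarith)
      have ht0 : 0 < t := hpos
      have ht7 : 7 / 10 ≤ t := by
        refine le_of_sq_le_sq ?_ ht0.le
        rw [← ht2]; linarith
      have hy6 : 6 / 10 ≤ t * g := by nlinarith
      have hy2 : (t * g) ^ 2 ≤ (9 / 10) ^ 2 := by
        have h5 : t2 * N ≤ N - 1 := by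
          have h6 : t2 + t2 / (N - 1) ≤ 1 := by linarith
          have h7 : t2 + t2 / (N - 1) = t2 * N / (N - 1) := by field_simp; ring
          rw [h7, div_le_one hN1] at h6
          exact h6
        have e : (t * g) ^ 2 = t2 * (N - k) ^ 2 / (N - 1) ^ 2 := by
          rw [hg, ht2]; field_simp
        rw [e, div_le_iff₀ (by positivity)]
        have h6 : (N - k) ^ 2 ≤ (9 / 10) ^ 2 * (N * (N - 1)) := by
          have h7 : N - k ≤ (7 * N - 1) / 8 := by linarith
          have h8 : (N - k) ^ 2 ≤ ((7 * N - 1) / 8) ^ 2 :=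
            pow_le_pow_left₀ (by linarith) h7 2
          nlinarith
        have h9 : t2 * (N - k) ^ 2 ≤ t2 * ((9 / 10) ^ 2 * (N * (N - 1))) :=
          mul_le_mul_of_nonneg_left h6 (by linarith)
        nlinarith
      have hy9 : t * g ≤ 9 / 10 := by
        refine le_of_sq_le_sq hy2 (by norm_num)
      have ht2y : 115 / 100 * (t * g) ^ 2 ≤ t2 := by
        have : (t * g) ^ 2 = t2 * g ^ 2 := by rw [ht2]; ring
        rw [this]
        have h5 : g ^ 2 ≤ (13 / 14) ^ 2 := pow_le_pow_left₀ (by linarith) hg13 2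
        nlinarith
      have h8 : g / 7 * (1 - t2) ≤ 13 / 98 * (1 - 115 / 100 * (t * g) ^ 2) := by
        have ht1 : 0 ≤ 1 - t2 := by
          have : 0 ≤ t2 / (N - 1) := by positivity
          linarith
        nlinarith
      have h9 : 0 ≤ (t * g - 6 / 10) * (9 / 10 - t * g) :=
        mul_nonneg (by linarith) (by linarith)
      nlinarith
    have := mul_le_mul_of_nonneg_left hkey hCC
    linarith

end Pool.Agent.H49.L
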