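import Mathlib
import Pool.Agent.H49.L.StA

open Finset
open scoped BigOperators

namespace Pool.Agent.H49.L

open Pool.Agent.H49.MMS
open Pool.Agent.H49.M4 (least LB steps bd enough swap2 gd cnt_gd gd_nonneg var_le base0 cantelli)

variable {α : Type} [Fintype α] [DecidableEq α]

/-- weight of a pair (bad `J`, good `K` of moderate sum) -/
noncomputable def wt (x : α → ℝ) (x1 T c : ℝ) (J K : Finset α) : ℝ :=
  if x1 + ∑ a ∈ J, x a ≤ 0 ∧ 0 < ∑ a ∈ K, x a ∧
    ∑ a ∈ K, x a < c * (T - x1 - ∑ a ∈ J, x a) + 28 / 25 then 1 else 0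

omit [Fintype α] [DecidableEq α] in
theorem wt_nonneg (x : α → ℝ) (x1 T c : ℝ) (J K : Finset α) : 0 ≤ wt x x1 T c J K := by
  unfold wt; split_ifs <;> norm_num

theorem A_low (x u : α → ℝ) (xb : ℝ) (hx : ∀ a, x a = xb + u a)
    (hu2 : ∑ a, u a ^ 2 = 1) (hT : 0 < ∑ a, x a) (k : ℕ) (hk : 2 ≤ k)
    (hn : 8 * k + 1 ≤ Fintype.card α) (hn' : Fintype.card α + 1 ≤ 9 * k)
    (a1 : α) (ha2 : 17 / 100 ≤ u a1 ^ 2) (J : Finset α)
    (hJ : J ⊆ univ.erase a1) (hJc : J.card = k - 1) (hbad : x a1 + ∑ a ∈ J, x a ≤ 0) :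
    3 / 4 * ((Fintype.card α - k).choose k : ℝ) * (k / ((Fintype.card α - k : ℕ) : ℝ)) ≤
      ∑ K ∈ (univ.erase a1 \ J).powersetCard k,
        wt x (x a1) (∑ a, x a) ((k : ℝ) / ((Fintype.card α - k : ℕ) : ℝ)) J K := by
  set Y : Finset α := univ.erase a1 \ J with hY
  have hYc : Y.card = Fintype.card α - k := by
    rw [hY, Finset.card_sdiff_of_subset hJ, Finset.card_erase_of_mem (Finset.mem_univ _),
      Finset.card_univ, hJc]
    omega
  have hY15 : 15 ≤ Y.card := by omega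
  have hYR : (Y.card : ℝ) = ((Fintype.card α - k : ℕ) : ℝ) := by rw [hYc]
  have hN0 : (0 : ℝ) < Y.card := by
    have : 0 < Y.card := by omega
    exact_mod_cast this
  have hsY : ∑ a ∈ Y, x a = ∑ a, x a - x a1 - ∑ a ∈ J, x a := by
    have h1 := Finset.sum_erase_add univ x (Finset.mem_univ a1)
    have h2 := Finset.sum_sdiff (f := x) hJ
    linarith
  set μ : ℝ := (∑ a ∈ Y, x a) / Y.card with hμ
  have hsYpos : 0 < ∑ a ∈ Y, x a := by rw [hsY]; linarith
  have hμ0 : 0 < μ := div_pos hsYpos hN0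
  set w : α → ℝ := fun a => x a - μ with hw
  have q1 : PP w Y 1 = 0 := by
    unfold PP
    simp only [pow_one, hw]
    rw [Finset.sum_sub_distrib, Finset.sum_const, nsmul_eq_mul, hμ]
    field_simp
    ring
  have hV83 : PP w Y 2 ≤ 83 / 100 := by
    have h1 := var_le Y x u xb hx
    have h2 : ∑ a ∈ Y, u a ^ 2 ≤ 1 - u a1 ^ 2 := by
      have h3 := Finset.sum_erase_add univ (fun a => u a ^ 2) (Finset.mem_univ a1)
      have h4 : ∑ a ∈ Y, u a ^ 2 ≤ ∑ a ∈ univ.erase a1, u a ^ 2 :=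
        Finset.sum_le_sum_of_subset_of_nonneg Finset.sdiff_subset fun a _ _ => sq_nonneg _
      linarith
    have h5 : PP w Y 2 = ∑ a ∈ Y, (x a - (∑ a ∈ Y, x a) / Y.card) ^ 2 := rfl
    rw [h5]; linarith
  have hxK : ∀ K ∈ Y.powersetCard k, ∑ a ∈ K, x a = k * μ + ∑ a ∈ K, w a := by
    intro K hK
    have hKc := (Finset.mem_powersetCard.1 hK).2
    simp only [hw]
    rw [Finset.sum_sub_distrib, Finset.sum_const, hKc, nsmul_eq_mul]; ring
  have hkμ : (k : ℝ) / ((Fintype.card α - k : ℕ) : ℝ) * (∑ a, x a - x a1 - ∑ a ∈ J, x a) =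
      k * μ := by
    rw [← hsY, ← hYR, hμ]; ring
  have hk0 : (0 : ℝ) < k := by
    have : 0 < k := by omega
    exact_mod_cast this
  have hkμ0 : 0 < (k : ℝ) * μ := mul_pos hk0 hμ0
  have hV0 : 0 ≤ PP w Y 2 := Finset.sum_nonneg fun a _ => sq_nonneg _
  rw [← hYc]
  rcases hV0.lt_or_eq with hVp | hVz
  · set σ := Real.sqrt (PP w Y 2) with hσ
    have hσ0 : 0 < σ := Real.sqrt_pos.2 hVp
    have hσ2 : σ ^ 2 = PP w Y 2 := Real.sq_sqrt hV0
    have hσ9 : σ ≤ 912 / 1000 := by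
      refine le_of_sq_le_sq ?_ (by norm_num)
      rw [hσ2]; linarith
    have r1 : PP (fun a => w a / σ) Y 1 = 0 := by rw [PP_div, q1, zero_div]
    have r2 : PP (fun a => w a / σ) Y 2 = 1 := by
      rw [PP_div, hσ2]; exact div_self hVp.ne'
    have hmod := mod_norm (fun a => w a / σ) Y k hk hY15 (by omega) (by omega) r1 r2
    refine hmod.trans ?_
    unfold ev
    refine Finset.sum_le_sum fun K hK => ?_
    have h8 : ∑ a ∈ K, w a / σ = (∑ a ∈ K, w a) / σ := (Finset.sum_div _ _ _).symm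
    split_ifs with c1
    · rw [h8, zero_add] at c1
      have h9 : 0 < ∑ a ∈ K, w a := by
        have := mul_pos c1.1 hσ0
        rwa [div_mul_cancel₀ _ hσ0.ne'] at this
      have h10 : ∑ a ∈ K, w a < 28 / 25 := by
        have := (div_lt_iff₀ hσ0).1 c1.2
        have h11 : 2 / (163 / 100) * σ ≤ 2 / (163 / 100) * (912 / 1000) :=
          mul_le_mul_of_nonneg_left hσ9 (by norm_num)
        have h12 : (2 : ℝ) / (163 / 100) * (912 / 1000) < 28 / 25 := by norm_num
        linarith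
      unfold wt
      rw [if_pos]
      refine ⟨hbad, ?_, ?_⟩
      · rw [hxK K hK]; linarith
      · rw [hYc, hkμ, hxK K hK]; linarith
    · exact wt_nonneg _ _ _ _ _ _
  · -- constant on `Y`
    have hw0 : ∀ a ∈ Y, w a = 0 := by
      intro a ha
      have h := (Finset.sum_eq_zero_iff_of_nonneg (fun a _ => sq_nonneg (w a))).1 hVz.symm a ha
      simpa using h
    have hall : ∀ K ∈ Y.powersetCard k,
        wt x (x a1) (∑ a, x a) ((k : ℝ) / ((Y.card : ℕ) : ℝ)) J K = 1 := by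
      intro K hK
      have hKs := (Finset.mem_powersetCard.1 hK).1
      have h0 : ∑ a ∈ K, w a = 0 := Finset.sum_eq_zero fun a ha => hw0 a (hKs ha)
      unfold wt
      rw [if_pos]
      refine ⟨hbad, ?_, ?_⟩
      · rw [hxK K hK, h0]; linarith
      · rw [hYc, hkμ, hxK K hK, h0]; linarith
    rw [Finset.sum_congr rfl hall, Finset.sum_const, Finset.card_powersetCard, nsmul_eq_mul,
      mul_one]
    have h1 : (k : ℝ) / ((Y.card : ℕ) : ℝ) ≤ 1 := by
      rw [div_le_one hN0]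
      have : k ≤ Y.card := by omega
      exact_mod_cast this
    have h2 : (0 : ℝ) ≤ ((Y.card).choose k : ℝ) := by positivity
    have h3 : 0 ≤ (k : ℝ) / ((Y.card : ℕ) : ℝ) := by positivity
    nlinarith

theorem B_up (x u : α → ℝ) (xb : ℝ) (hxb : 0 < xb) (hx : ∀ a, x a = xb + u a)
    (hu2 : ∑ a, u a ^ 2 = 1) (hT : 0 < ∑ a, x a) (k : ℕ) (hk : 2 ≤ k)
    (hn : 8 * k + 1 ≤ Fintype.card α)
    (a1 : α) (ha : 0 < u a1) (ha2 : 17 / 100 ≤ u a1 ^ 2) (K : Finset α)
    (hK : K ⊆ univ.erase a1) (hKc : K.card = k) :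
    ∑ J ∈ (univ.erase a1 \ K).powersetCard (k - 1),
        wt x (x a1) (∑ a, x a) ((k : ℝ) / ((Fintype.card α - k : ℕ) : ℝ)) J K ≤
      3 / 4 * ((Fintype.card α - k - 1).choose (k - 1) : ℝ) * gd x K := by
  set Z : Finset α := univ.erase a1 \ K with hZ
  have hZc : Z.card = Fintype.card α - k - 1 := by
    rw [hZ, Finset.card_sdiff_of_subset hK, Finset.card_erase_of_mem (Finset.mem_univ _),
      Finset.card_univ, hKc]
    omega
  by_cases hg : 0 < ∑ a ∈ K, x a
  swap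
  · have h0 : ∀ J ∈ Z.powersetCard (k - 1),
        wt x (x a1) (∑ a, x a) ((k : ℝ) / ((Fintype.card α - k : ℕ) : ℝ)) J K = 0 := by
      intro J _
      unfold wt
      rw [if_neg]
      intro h; exact hg h.2.1
    rw [Finset.sum_eq_zero h0]
    have := gd_nonneg x K
    positivity
  have hgd : gd x K = 1 := by unfold gd; rw [if_pos hg]
  rw [hgd, mul_one]
  set y : ℝ := ∑ a ∈ K, x a with hy
  set T : ℝ := ∑ a, x a with hTd
  have hm14 : 7 * k ≤ Z.card := by omega
  have hkR : (2 : ℝ) ≤ k := by exact_mod_cast hk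
  have hm7 : (7 : ℝ) * k ≤ Z.card := by exact_mod_cast hm14
  set m : ℝ := (Z.card : ℝ) with hm
  have hm0 : 0 < m := by linarith
  have hm1 : 0 < m - 1 := by linarith
  have hnk : ((Fintype.card α - k : ℕ) : ℝ) = m + 1 := by
    rw [hm, hZc]
    have : Fintype.card α - k = (Fintype.card α - k - 1) + 1 := by omega
    rw [this]; push_cast; simp
  have hsZ : ∑ a ∈ Z, x a = T - x a1 - y := by
    have h1 := Finset.sum_erase_add univ x (Finset.mem_univ a1)
    have h2 := Finset.sum_sdiff (f := x) hK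
    linarith
  have hk1 : ((k - 1 : ℕ) : ℝ) = k - 1 := by rw [Nat.cast_sub (by omega)]; push_cast; ring
  set μ : ℝ := (∑ a ∈ Z, x a) / Z.card with hμ
  set w : α → ℝ := fun a => x a - μ with hw
  have q1 : ∑ a ∈ Z, w a = 0 := by
    simp only [hw]
    rw [Finset.sum_sub_distrib, Finset.sum_const, nsmul_eq_mul, hμ, ← hm]
    field_simp
    ring
  have hV83 : ∑ a ∈ Z, w a ^ 2 ≤ 83 / 100 := by
    have h1 := var_le Z x u xb hx
    have h2 : ∑ a ∈ Z, u a ^ 2 ≤ 1 - u a1 ^ 2 := by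
      have h3 := Finset.sum_erase_add univ (fun a => u a ^ 2) (Finset.mem_univ a1)
      have h4 : ∑ a ∈ Z, u a ^ 2 ≤ ∑ a ∈ univ.erase a1, u a ^ 2 :=
        Finset.sum_le_sum_of_subset_of_nonneg Finset.sdiff_subset fun a _ _ => sq_nonneg _
      linarith
    have h5 : ∑ a ∈ Z, w a ^ 2 = ∑ a ∈ Z, (x a - (∑ a ∈ Z, x a) / Z.card) ^ 2 := rfl
    rw [h5]; linarith
  have hvar : (((k - 1 : ℕ) : ℝ) * ((Z.card : ℝ) - ((k - 1 : ℕ) : ℝ))) /
      ((Z.card : ℝ) * ((Z.card : ℝ) - 1)) * ∑ a ∈ Z, w a ^ 2 ≤ 1017 / 10000 := by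
    rw [hk1, ← hm]
    have h1 : ((k : ℝ) - 1) * (m - (k - 1)) / (m * (m - 1)) ≤ 6 / 49 := by
      rw [div_le_div_iff₀ (mul_pos hm0 hm1) (by norm_num)]
      obtain ⟨z, hz, hz0⟩ : ∃ z, m = 7 * k + z ∧ 0 ≤ z := ⟨m - 7 * k, by ring, by linarith⟩
      rw [hz]
      nlinarith [mul_nonneg hz0 hz0, mul_nonneg hz0 (show (0:ℝ) ≤ k - 2 by linarith)]
    have h2 : 0 ≤ ∑ a ∈ Z, w a ^ 2 := Finset.sum_nonneg fun a _ => sq_nonneg _
    calc ((k : ℝ) - 1) * (m - (k - 1)) / (m * (m - 1)) * ∑ a ∈ Z, w a ^ 2 ≤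
        6 / 49 * ∑ a ∈ Z, w a ^ 2 := mul_le_mul_of_nonneg_right h1 h2
      _ ≤ 1017 / 10000 := by linarith
  have hx1 : 412 / 1000 ≤ x a1 := by
    have h1 : 412 / 1000 ≤ u a1 := by
      refine le_of_sq_le_sq ?_ ha.le
      have : (412 / 1000 : ℝ) ^ 2 ≤ 17 / 100 := by norm_num
      linarith
    rw [hx]; linarith
  have hcan := cantelli Z (k - 1) (by omega) (by omega) w q1 (193 / 1000) (527 / 1000)
    (1017 / 10000) (by norm_num) hvar
  have hle : ∑ J ∈ Z.powersetCard (k - 1),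
        wt x (x a1) T ((k : ℝ) / ((Fintype.card α - k : ℕ) : ℝ)) J K ≤
      ∑ J ∈ Z.powersetCard (k - 1), (if 193 / 1000 ≤ - ∑ a ∈ J, w a then (1 : ℝ) else 0) := by
    refine Finset.sum_le_sum fun J hJ => ?_
    have hJc := (Finset.mem_powersetCard.1 hJ).2
    unfold wt
    split_ifs with c1 c2 c2
    · exact le_rfl
    · exfalso
      apply c2
      obtain ⟨d1, _, d3⟩ := c1
      rw [← hy, hnk] at d3
      set s : ℝ := - ∑ a ∈ J, x a with hs
      have e1 : - ∑ a ∈ J, w a = s + (k - 1) * ((T - x a1 - y) / m) := by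
        simp only [hw]
        rw [Finset.sum_sub_distrib, Finset.sum_const, hJc, nsmul_eq_mul, hk1, hμ, hsZ, ← hm, hs]
        ring
      rw [e1]
      have d1' : x a1 ≤ s := by rw [hs]; linarith
      have d3' : y < (k : ℝ) / (m + 1) * (T - x a1 + s) + 28 / 25 := by
        have : T - x a1 - ∑ a ∈ J, x a = T - x a1 + s := by rw [hs]; ring
        rw [← this]; exact d3
      set ρ : ℝ := ((k : ℝ) - 1) / m with hρ
      have hρ0 : 0 ≤ ρ := div_nonneg (by linarith) hm0.le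
      have hρ7 : ρ ≤ 1 / 7 := by rw [hρ, div_le_div_iff₀ hm0 (by norm_num)]; linarith
      set c : ℝ := (k : ℝ) / (m + 1) with hc
      have hc0 : 0 ≤ c := by positivity
      have hc1 : c ≤ 1 := by rw [hc, div_le_one (by linarith)]; linarith
      have e2 : (k - 1) * ((T - x a1 - y) / m) = ρ * (T - x a1 - y) := by rw [hρ]; ring
      rw [e2]
      -- combination
      have f1 : ρ * y ≤ ρ * (c * (T - x a1 + s) + 28 / 25) :=
        mul_le_mul_of_nonneg_left d3'.le hρ0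
      have hρc : 0 ≤ ρ * c := mul_nonneg hρ0 hc0
      have hρc1 : ρ * c ≤ 1 / 7 := by nlinarith
      have f2 : (1 - ρ * c) * x a1 ≤ (1 - ρ * c) * s :=
        mul_le_mul_of_nonneg_left d1' (by linarith)
      have f3 : 0 ≤ ρ * (1 - c) * T := mul_nonneg (mul_nonneg hρ0 (by linarith)) hT.le
      have f4 : (1 - ρ) * (412 / 1000) ≤ (1 - ρ) * x a1 :=
        mul_le_mul_of_nonneg_left hx1 (by linarith)
      nlinarith
    · norm_num
    · exact le_rfl
  refine hle.trans (hcan.trans ?_)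
  rw [hZc]
  refine mul_le_mul_of_nonneg_right (by norm_num) (by positivity)

/-- the case of a large positive entry -/
theorem ST (x u : α → ℝ) (xb : ℝ) (hxb : 0 < xb) (hx : ∀ a, x a = xb + u a)
    (hu2 : ∑ a, u a ^ 2 = 1) (hT : 0 < ∑ a, x a) (k : ℕ) (hk : 2 ≤ k)
    (hn : 8 * k + 1 ≤ Fintype.card α) (hn' : Fintype.card α + 1 ≤ 9 * k)
    (a1 : α) (ha : 0 < u a1) (ha2 : 17 / 100 ≤ u a1 ^ 2) :
    ((Fintype.card α - 1).choose (k - 1) : ℝ) ≤ goodC x k := by
  refine enough x a1 k (by omega) ?_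
  set c : ℝ := (k : ℝ) / ((Fintype.card α - k : ℕ) : ℝ) with hc
  have hswap := swap2 (univ.erase a1) k (k - 1) (fun J K => wt x (x a1) (∑ a, x a) c J K)
  have hrel : ((Fintype.card α - k).choose k : ℝ) * c =
      ((Fintype.card α - k - 1).choose (k - 1) : ℝ) := by
    have h := Nat.add_one_mul_choose_eq (Fintype.card α - k - 1) (k - 1)
    have e1 : Fintype.card α - k - 1 + 1 = Fintype.card α - k := by omega
    have e2 : k - 1 + 1 = k := by omega
    rw [e1, e2] at h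
    have h' : (((Fintype.card α - k) * (Fintype.card α - k - 1).choose (k - 1) : ℕ) : ℝ) =
      (((Fintype.card α - k).choose k * k : ℕ) : ℝ) := by rw [h]
    rw [Nat.cast_mul, Nat.cast_mul] at h'
    have hpos : (0 : ℝ) < ((Fintype.card α - k : ℕ) : ℝ) := by
      have : 0 < Fintype.card α - k := by omega
      exact_mod_cast this
    rw [hc, mul_div_assoc', ← h']
    field_simp
  have hA : 3 / 4 * ((Fintype.card α - k - 1).choose (k - 1) : ℝ) *
      ∑ J ∈ (univ.erase a1).powersetCard (k - 1), bd x (x a1) J ≤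
      ∑ J ∈ (univ.erase a1).powersetCard (k - 1), ∑ K ∈ (univ.erase a1 \ J).powersetCard k,
        wt x (x a1) (∑ a, x a) c J K := by
    rw [Finset.mul_sum]
    refine Finset.sum_le_sum fun J hJ => ?_
    obtain ⟨hJs, hJc⟩ := Finset.mem_powersetCard.1 hJ
    unfold bd
    split_ifs with hb
    · have h1 := A_low x u xb hx hu2 hT k hk hn hn' a1 ha2 J hJs hJc hb
      rw [mul_assoc, ← hc, hrel] at h1
      rw [mul_one]
      exact h1
    · rw [mul_zero]
      exact Finset.sum_nonneg fun K _ => wt_nonneg _ _ _ _ _ _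
  have hB : ∑ K ∈ (univ.erase a1).powersetCard k,
      ∑ J ∈ (univ.erase a1 \ K).powersetCard (k - 1), wt x (x a1) (∑ a, x a) c J K ≤
      3 / 4 * ((Fintype.card α - k - 1).choose (k - 1) : ℝ) * cnt x (univ.erase a1) k 0 := by
    rw [cnt_gd, Finset.mul_sum]
    refine Finset.sum_le_sum fun K hK => ?_
    obtain ⟨hKs, hKc⟩ := Finset.mem_powersetCard.1 hK
    exact B_up x u xb hxb hx hu2 hT k hk hn a1 ha ha2 K hKs hKc
  rw [hswap] at hA
  have hpos : (0 : ℝ) < 3 / 4 * ((Fintype.card α - k - 1).choose (k - 1) : ℝ) := by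
    have : 0 < (Fintype.card α - k - 1).choose (k - 1) := Nat.choose_pos (by omega)
    have : (0 : ℝ) < ((Fintype.card α - k - 1).choose (k - 1) : ℝ) := by exact_mod_cast this
    positivity
  exact le_of_mul_le_mul_left (hA.trans hB) hpos

end Pool.Agent.H49.L
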