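import Mathlib
import Pool.Agent.H49.L.StB

open Finset
open scoped BigOperators

namespace Pool.Agent.H49.L

open Pool.Agent.H49.MMS
open Pool.Agent.H49.M4 (least LB steps base0)

/-- the base range `8k < n < 9k` -/
theorem base8 (k r : ℕ) (hk : 2 ≤ k) (hr1 : 1 ≤ r) (hrk : r < k) : LB (8 * k + r) k := by
  intro α _ _ x hcard hxs
  rcases normalise x hxs with h | ⟨c, xb, u, hc, hxb, hxu, hu, hu2⟩
  · rw [goodC_pos x k (by omega) h, hcard]
    have h1 : (8 * k + r - 1).choose (k - 1) ≤ (8 * k + r).choose k := by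
      have h2 : 8 * k + r = (8 * k + r - 1) + 1 := by omega
      have h3 : k = (k - 1) + 1 := by omega
      calc (8 * k + r - 1).choose (k - 1) ≤
          (8 * k + r - 1).choose (k - 1) + (8 * k + r - 1).choose (k - 1 + 1) :=
            Nat.le_add_right _ _
        _ = ((8 * k + r - 1) + 1).choose ((k - 1) + 1) := (Nat.choose_succ_succ _ _).symm
        _ = _ := by rw [← h2, ← h3]
    exact_mod_cast h1
  rw [← goodC_scale x k c hc]
  set y : α → ℝ := fun a => c * x a with hy
  have hT : 0 < ∑ a, y a := by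
    have : ∑ a, y a = c * ∑ a, x a := by rw [hy, Finset.mul_sum]
    rw [this]; exact mul_pos hc hxs
  have hn : 8 * k + 1 ≤ Fintype.card α := by rw [hcard]; omega
  have hn' : Fintype.card α + 1 ≤ 9 * k := by rw [hcard]; omega
  by_cases hns : ∀ a, 0 < u a → u a ^ 2 ≤ 17 / 100
  · have := NS y u xb hxb hxu hu hu2 k hk hn hns
    rw [hcard] at this
    exact this
  · push Not at hns
    obtain ⟨a1, ha, ha2⟩ := hns
    have := ST y u xb hxb hxu hu2 hT k hk hn hn' a1 ha ha2.le
    rw [hcard] at this
    exact this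

/-- the lower bound for all `n ≥ 8k` -/
theorem all8 (n k : ℕ) (hk : 1 ≤ k) (hn : 8 * k ≤ n) : LB n k := by
  have hdiv := Nat.div_add_mod n k
  by_cases h0 : n % k = 0
  · have h4 : 4 ≤ n / k := (Nat.le_div_iff_mul_le (by omega)).2 (by omega)
    obtain ⟨j, hj⟩ := Nat.exists_eq_add_of_le h4
    have e : n = 4 * k + j * k := by
      rw [hj, h0] at hdiv
      nlinarith
    rw [e]
    exact steps _ k hk (by omega) (base0 k hk) j
  · have hk2 : 2 ≤ k := by
      by_contra hc
      have : k = 1 := by omega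
      subst this
      exact h0 (Nat.mod_one n)
    have hrk : n % k < k := Nat.mod_lt _ (by omega)
    have h8 : 8 ≤ n / k := (Nat.le_div_iff_mul_le (by omega)).2 hn
    obtain ⟨j, hj⟩ := Nat.exists_eq_add_of_le h8
    have e : n = 8 * k + n % k + j * k := by
      rw [hj] at hdiv
      nlinarith
    rw [e]
    have e2 : (8 * k + n % k + j * k) % k = n % k := by rw [← e]
    exact steps _ k hk (by omega) (base8 k (n % k) hk2 (by omega) hrk) j

end Pool.Agent.H49.L
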